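import Pool.Agent.Helper62.Stab.T2A

/-! Project T, layer 1: the classes `b_i × b_j` on the product of two projective spaces. -/

open Topology Filter Set

noncomputable section

namespace Pool.Agent.Helper62.Stab.T2

open Pool.Agent.Helper1.Stab

open Pool.Agent.Helper63.Stab

open Pool.Agent.Helper74.Stab (pw zero_comp comp_zero sub_comp tens_zero comp_sum sum_comp tens_sum
  rr tens_ltens_rr tens_tens_rr asC uC tens_asC tens_uC pw_zero pw_succ pw_natural Sym pw_succ'
  tens_pw lu ET E_def up sym_E)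

variable {R : Biv}

/-! ## Positions -/

theorem tens_tens_asI {K L : LC} (x : R.Hom K L) (Z W : LC) :
    R.comp (R.tens x (Z.prod W)) (jh R (asI L Z W)) =
      R.comp (jh R (asI K Z W)) (R.tens (R.tens x Z) W) := by
  rw [tens_tens_eq_pl, tens_eq_pl]
  exact (pl_comm x (Homeomorph.refl (Z.prod W)) _ _ _ _ (asI K Z W) (asI L Z W)
    (fun _ => rfl) (fun _ => rfl)).symm

theorem ltens_tens_asI (X W : LC) {K L : LC} (x : R.Hom K L) :
    R.comp (R.ltens X (R.tens x W)) (jh R (asI X L W)) =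
      R.comp (jh R (asI X K W)) (R.tens (R.ltens X x) W) := by
  rw [tens_eq_pl x W, ltens_pl, ltens_eq_pl x X, tens_pl]
  exact (pl_comm x (Homeomorph.refl (X.prod W)) _ _ _ _ (asI X K W) (asI X L W)
    (fun _ => rfl) (fun _ => rfl)).symm

theorem ltens_ltens_asI (X Z : LC) {K L : LC} (x : R.Hom K L) :
    R.comp (R.ltens X (R.ltens Z x)) (jh R (asI X Z L)) =
      R.comp (jh R (asI X Z K)) (R.ltens (X.prod Z) x) := by
  rw [ltens_eq_pl x Z, ltens_pl, ltens_eq_pl x (X.prod Z)]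
  exact (pl_comm x (Homeomorph.refl (X.prod Z)) _ _ _ _ (asI X Z K) (asI X Z L)
    (fun _ => rfl) (fun _ => rfl)).symm

theorem ltens_rr (X W : LC) {K L : LC} (x : R.Hom K L) :
    R.comp (R.ltens (X.prod W) x) (jh R (rr X W L)) =
      R.comp (jh R (rr X W K)) (R.tens (R.ltens X x) W) := by
  rw [ltens_eq_pl x X, tens_pl, ltens_eq_pl x (X.prod W)]
  exact (pl_comm x (Homeomorph.refl (X.prod W)) _ _ _ _ (rr X W K) (rr X W L)
    (fun _ => rfl) (fun _ => rfl)).symm

theorem lunit_nat {K L : LC} (x : R.Hom K L) :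
    R.comp (jh R (LC.lunit K)) x = R.comp (R.ltens LC.point x) (jh R (LC.lunit L)) := by
  have h := R.tens_point x
  rw [jh_def, jh_def] at h
  rw [ltens_def, R.assoc, R.assoc]
  have h1 : R.comp (jh R (LC.swap L LC.point)) (jh R (LC.lunit L)) =
      jh R (Homeomorph.prodPUnit L : L.prod LC.point ≃ₜ L) := by
    rw [← jh_trans]
    exact jh_congr R fun _ => rfl
  rw [h1, h, ← R.assoc, ← jh_trans]
  congr 1

/-! ## The operator of a line pulled back from the second factor -/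

theorem ltens_E {X : LC} {S : Type} [Fintype S] (l : X → Pr S 1) (hl : Continuous l)
    (o : Orient R) (Z : LC) :
    R.comp (R.ltens Z (o.E l hl)) (jh R (asI Z X LC.C)) =
      o.E (X := Z.prod X) (fun x => l x.2) (hl.comp continuous_snd) := by
  have h2 : R.comp (R.ltens Z (R.J (graph (L := LC.Pr S 1) l hl)))
      (jh R (asI Z X (LC.Pr S 1))) = R.J (graph (X := Z.prod X) (L := LC.Pr S 1)
        (fun x => l x.2) (hl.comp continuous_snd)) := by
    rw [jh, Orient.pj_ltens_J, ← R.J_comp]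
    congr 1
  rw [E_def, E_def, ltens_comp, R.assoc, ltens_ltens_asI, ← R.assoc, h2]

/-! ## The classes `b_i × b_j` -/

section
variable (o : Orient R) (S S' : Type) [Fintype S] [Fintype S']

/-- the class `b_i × b_j` -/
def bb (i j : ℕ) : R.Hom ((Cn i).prod (Cn j)) ((LC.Pr S 1).prod (LC.Pr S' 1)) :=
  R.comp (R.tens (o.b S i) (Cn j)) (R.ltens (LC.Pr S 1) (o.b S' j))

/-- the operators of the three lines -/
def Et : R.Hom ((LC.Pr S 1).prod (LC.Pr S' 1)) (((LC.Pr S 1).prod (LC.Pr S' 1)).prod LC.C) :=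
  o.E (X := (LC.Pr S 1).prod (LC.Pr S' 1)) Pr.tensor Pr.continuous_tensor
def E1 : R.Hom ((LC.Pr S 1).prod (LC.Pr S' 1)) (((LC.Pr S 1).prod (LC.Pr S' 1)).prod LC.C) :=
  o.E (X := (LC.Pr S 1).prod (LC.Pr S' 1)) (fun x => x.1) continuous_fst
def E2 : R.Hom ((LC.Pr S 1).prod (LC.Pr S' 1)) (((LC.Pr S 1).prod (LC.Pr S' 1)).prod LC.C) :=
  o.E (X := (LC.Pr S 1).prod (LC.Pr S' 1)) (fun x => x.2) continuous_snd

theorem E1_eq : E1 o S S' = R.comp (R.tens (ET o S) (LC.Pr S' 1))
    (jh R (rr (LC.Pr S 1) LC.C (LC.Pr S' 1))) :=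
  (Pool.Agent.Helper74.Stab.tens_E o (X := LC.Pr S 1) (fun P => P) continuous_id
    (LC.Pr S' 1)).symm

theorem E2_eq : E2 o S S' = R.comp (R.ltens (LC.Pr S 1) (ET o S'))
    (jh R (asI (LC.Pr S 1) (LC.Pr S' 1) LC.C)) :=
  (ltens_E (X := LC.Pr S' 1) (fun P => P) continuous_id o (LC.Pr S 1)).symm

theorem bb_E1' (i j : ℕ) : R.comp (bb o S S' i j) (E1 o S S') =
    R.comp (R.tens (R.comp (o.b S i) (ET o S)) (Cn j))
      (R.comp (R.ltens ((LC.Pr S 1).prod LC.C) (o.b S' j))
        (jh R (rr (LC.Pr S 1) LC.C (LC.Pr S' 1)))) := by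
  rw [E1_eq, bb, R.assoc, ← R.assoc (R.ltens _ _), ← R.exch, R.tens_comp]
  simp only [R.assoc]

theorem bb_E1 (i j : ℕ) (hi : i + 1 < Fintype.card S) :
    R.comp (bb o S S' (i + 1) j) (E1 o S S') =
      R.comp (jh R (rr (Cn i) LC.C (Cn j))) (R.tens (bb o S S' i j) LC.C) := by
  have h : R.comp (o.b S (i + 1)) (ET o S) = R.tens (o.b S i) LC.C := o.b_cap S i hi
  rw [bb_E1', h, ltens_rr, ← R.assoc]
  have h2 : R.comp (R.tens (R.tens (o.b S i) LC.C) (Cn j)) (jh R (rr (LC.Pr S 1) LC.C (Cn j))) =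
      R.comp (jh R (rr (Cn i) LC.C (Cn j))) (R.tens (R.tens (o.b S i) (Cn j)) LC.C) :=
    tens_tens_rr (o.b S i) LC.C (Cn j)
  refine (congrArg (fun z => R.comp z (R.tens (R.ltens (LC.Pr S 1) (o.b S' j)) LC.C)) h2).trans ?_
  rw [R.assoc, ← R.tens_comp]
  rfl

theorem bb_E1_zero (j : ℕ) : R.comp (bb o S S' 0 j) (E1 o S S') = 0 := by
  have h : R.comp (o.b S 0) (ET o S) = 0 := o.b_cap_zero S
  rw [bb_E1', h, tens_zero, zero_comp]

theorem bb_E2' (i j : ℕ) : R.comp (bb o S S' i j) (E2 o S S') =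
    R.comp (R.tens (o.b S i) (Cn j))
      (R.comp (R.ltens (LC.Pr S 1) (R.comp (o.b S' j) (ET o S')))
        (jh R (asI (LC.Pr S 1) (LC.Pr S' 1) LC.C))) := by
  rw [E2_eq, bb, ltens_comp]
  simp only [R.assoc]

theorem bb_E2_aux {A B C X Y : LC} (x : R.Hom A X) (y : R.Hom B Y) :
    R.comp (R.tens x (B.prod C)) (R.comp (R.ltens X (R.tens y C)) (jh R (asI X Y C))) =
      R.comp (jh R (asI A B C)) (R.tens (R.comp (R.tens x B) (R.ltens X y)) C) := by
  rw [ltens_tens_asI, ← R.assoc, tens_tens_asI, R.assoc, ← R.tens_comp]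

theorem bb_E2 (i j : ℕ) (hj : j + 1 < Fintype.card S') :
    R.comp (bb o S S' i (j + 1)) (E2 o S S') =
      R.comp (jh R (asI (Cn i) (Cn j) LC.C)) (R.tens (bb o S S' i j) LC.C) := by
  have h : R.comp (o.b S' (j + 1)) (ET o S') = R.tens (o.b S' j) LC.C := o.b_cap S' j hj
  rw [bb_E2', h]
  exact bb_E2_aux (C := LC.C) (o.b S i) (o.b S' j)

theorem bb_E2_zero (i : ℕ) : R.comp (bb o S S' i 0) (E2 o S S') = 0 := by
  have h : R.comp (o.b S' 0) (ET o S') = 0 := o.b_cap_zero S'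
  rw [bb_E2', h, Orient.pj_ltens_zero, zero_comp, comp_zero]

/-- the filtration of the operator of the tensor product -/
theorem fil (h : ∀ i j, i < Fintype.card S → j < Fintype.card S' →
    ∃ z : ∀ i' j' : ℕ, R.Hom ((Cn i).prod (Cn j)) (((Cn i').prod (Cn j')).prod LC.C),
      R.comp (bb o S S' i j) (Et o S S' - E1 o S S' - E2 o S S') =
        ∑ i' ∈ Finset.range i, ∑ j' ∈ Finset.range j,
          R.comp (z i' j') (R.tens (bb o S S' i' j') LC.C)) :
    Fil (Fintype.card S) (Fintype.card S') (bb o S S') (Et o S S') (E1 o S S') (E2 o S S') where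
  sym := sym_E o _ _
  e1 i j hi _ := bb_E1 o S S' i j hi
  e1z j _ := bb_E1_zero o S S' j
  e2 i j _ hj := bb_E2 o S S' i j hj
  e2z i _ := bb_E2_zero o S S' i
  k := h

/-! ## The powers of the class of the tensor product -/

/-- the powers of the class of the tensor product of the two lines -/
def xt (k : ℕ) : R.Hom ((LC.Pr S 1).prod (LC.Pr S' 1)) (Cn k) :=
  R.comp (R.J (PMap.ofCont (K := (LC.Pr S 1).prod (LC.Pr S' 1)) (L := LC.Pr (S × S') 1) Pr.tensor
    Pr.continuous_tensor)) (o.upow (S × S') k)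

theorem xt_eq (k : ℕ) : xt o S S' k = R.comp (pw (Et o S S') k)
    (R.comp (R.tens (R.J (PMap.toPoint ((LC.Pr S 1).prod (LC.Pr S' 1)))) (Cn k))
      (jh R (lu (Cn k)))) := by
  have h1 : R.comp (R.J (PMap.ofCont (K := (LC.Pr S 1).prod (LC.Pr S' 1))
      (L := LC.Pr (S × S') 1) Pr.tensor Pr.continuous_tensor)) (ET o (S × S')) =
      R.comp (Et o S S') (R.tens (R.J (PMap.ofCont (K := (LC.Pr S 1).prod (LC.Pr S' 1))
      (L := LC.Pr (S × S') 1) Pr.tensor Pr.continuous_tensor)) LC.C) :=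
    o.E_natural (PMap.ofCont (K := (LC.Pr S 1).prod (LC.Pr S' 1))
      (L := LC.Pr (S × S') 1) Pr.tensor Pr.continuous_tensor) (X := LC.Pr (S × S') 1)
      (l := fun P => P) continuous_id Pr.continuous_tensor
      (fun y x hy => OnePoint.coe_injective hy)
  rw [xt, o.upow_eq_up, up, ← R.assoc, pw_natural _ _ _ h1 k, R.assoc, ← R.assoc (R.tens _ _),
    ← R.tens_comp, ← R.J_comp]
  rfl

theorem id_eq : R.J (PMap.id ((LC.Pr S 1).prod (LC.Pr S' 1))) =
    ∑ i ∈ Finset.range (Fintype.card S), ∑ j ∈ Finset.range (Fintype.card S'),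
      R.comp (R.comp (R.tens (o.upow S i) (LC.Pr S' 1)) (R.ltens (Cn i) (o.upow S' j)))
        (bb o S S' i j) := by
  have h1 : R.J (PMap.id ((LC.Pr S 1).prod (LC.Pr S' 1))) =
      R.comp (R.tens (R.J (PMap.id (LC.Pr S 1))) (LC.Pr S' 1))
        (R.ltens (LC.Pr S 1) (R.J (PMap.id (LC.Pr S' 1)))) := by
    rw [tens_id, ltens_id, R.comp_id]
  have hs := (o.exists_dual S).choose_spec.2.2.2
  have hs' := (o.exists_dual S').choose_spec.2.2.2
  have hs1 : ∑ i ∈ Finset.range (Fintype.card S), R.comp (o.upow S i) (o.b S i) =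
    R.J (PMap.id _) := hs
  have hs1' : ∑ i ∈ Finset.range (Fintype.card S'), R.comp (o.upow S' i) (o.b S' i) =
    R.J (PMap.id _) := hs'
  have hl : ∀ (Z : LC) {K L : LC} (s : Finset ℕ) (x : ℕ → R.Hom K L),
      R.ltens Z (∑ i ∈ s, x i) = ∑ i ∈ s, R.ltens Z (x i) := by
    intro Z K L s x
    simp only [ltens_def]
    rw [tens_sum, sum_comp, comp_sum]
  rw [h1, ← hs1, ← hs1', tens_sum, sum_comp]
  refine Finset.sum_congr rfl fun i _ => ?_
  rw [hl, comp_sum]
  refine Finset.sum_congr rfl fun j _ => ?_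
  rw [R.tens_comp, ltens_comp, bb]
  simp only [R.assoc]
  congr 1
  rw [← R.assoc, ← R.assoc, R.exch]

/-- (K0) -/
theorem xt_zero (hF : Fil (Fintype.card S) (Fintype.card S') (bb o S S') (Et o S S')
    (E1 o S S') (E2 o S S')) (k : ℕ) (h : Fintype.card S + Fintype.card S' ≤ k + 1) :
    xt o S S' k = 0 := by
  rw [← R.id_comp (xt o S S' k), id_eq o, sum_comp]
  refine Finset.sum_eq_zero fun i hi => ?_
  rw [sum_comp]
  refine Finset.sum_eq_zero fun j hj => ?_
  have hi' := Finset.mem_range.1 hi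
  have hj' := Finset.mem_range.1 hj
  rw [R.assoc, xt_eq, ← R.assoc (bb o S S' i j), hF.zero k i j hi' hj' (by omega), zero_comp,
    comp_zero]

/-! ## Multiplication with a class of degree zero -/

/-- multiplication with `t` -/
def mt {X : LC} (t : R.Hom X LC.point) : R.Hom X X :=
  R.comp (R.J (graph (X := X) (L := X) (fun x => x) continuous_id))
    (R.comp (R.tens t X) (jh R (LC.lunit X)))

theorem mt_E {X : LC} (t : R.Hom X LC.point) {S : Type} [Fintype S] (l : X → Pr S 1)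
    (hl : Continuous l) :
    R.comp (mt t) (o.E l hl) = R.comp (o.E l hl) (R.tens (mt t) LC.C) := by
  have h1 : R.comp (R.J (graph (X := X) (L := X) (fun x => x) continuous_id))
      (R.ltens X (o.E l hl)) = R.comp (o.E l hl) (R.comp (R.tens
        (R.J (graph (X := X) (L := X) (fun x => x) continuous_id)) LC.C)
        (jh R (asI X X LC.C).symm)) := by
    have h2 := o.E_natural (graph (X := X) (L := X) (fun x => x) continuous_id)
      (X := X.prod X) (l := fun x => l x.2) (m := l) (hl.comp continuous_snd) hl (by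
        intro y x hy
        have h3 : ((y, y) : X.prod X) = x := OnePoint.coe_injective hy
        rw [← h3])
    rw [← ltens_E l hl o X] at h2
    have h4 := congrArg (fun z => R.comp z (jh R (asI X X LC.C).symm)) h2
    simp only [R.assoc] at h4
    rw [jh_comp_symm', R.comp_id] at h4
    exact h4
  have h5 : R.tens (R.tens t X) LC.C = R.comp (jh R (asI X X LC.C).symm)
      (R.comp (R.tens t (X.prod LC.C)) (jh R (asI LC.point X LC.C))) := by
    rw [tens_tens_asI, jh_symm_comp]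
  rw [mt, R.tens_comp, R.tens_comp, h5]
  simp only [R.assoc]
  rw [lunit_nat, ← R.assoc (R.tens t X), R.exch, R.assoc, ← R.assoc (R.J _), h1]
  simp only [R.assoc]
  rw [tens_jh, ← jh_trans]
  rfl

theorem mt_toPoint {X : LC} [CompactSpace X] (t : R.Hom X LC.point) :
    R.comp (mt t) (R.J (PMap.toPoint X)) = t := by
  have h := R.tens_point t
  rw [jh_def, jh_def] at h
  have h0 : jh R (LC.lunit LC.point) =
      jh R (Homeomorph.prodPUnit LC.point : LC.point.prod LC.point ≃ₜ LC.point) :=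
    jh_congr R fun _ => rfl
  rw [mt, R.assoc, R.assoc, lunit_nat, ← R.assoc (R.tens t X), R.exch, R.assoc, h0, h, ← R.assoc,
    ← R.assoc, Orient.pj_ltens_J, jh, ← R.J_comp, ← R.J_comp]
  exact R.id_comp t

theorem bb_zero_aux {S S' : Type} [Fintype S] [Fintype S'] (x : R.Hom LC.point (LC.Pr S 1))
    (y : R.Hom LC.point (LC.Pr S' 1)) (s : S) (s' : S')
    (hx : x = R.J (PMap.ofPoint (K := LC.Pr S 1) (Pr.line s)))
    (hy : y = R.J (PMap.ofPoint (K := LC.Pr S' 1) (Pr.line s'))) :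
    R.comp (R.tens x LC.point) (R.ltens (LC.Pr S 1) y) = R.comp (jh R (LC.lunit LC.point))
      (R.J (PMap.ofPoint (K := (LC.Pr S 1).prod (LC.Pr S' 1)) (Pr.line s, Pr.line s'))) := by
  rw [hx, hy, R.tens_J, Orient.pj_ltens_J, jh, ← R.J_comp, ← R.J_comp]
  congr 1

/-- (K2) -/
theorem bb_xt (hF : Fil (Fintype.card S) (Fintype.card S') (bb o S S') (Et o S S')
    (E1 o S S') (E2 o S S')) (i j : ℕ) (hi : Fintype.card S = i + 1)
    (hj : Fintype.card S' = j + 1) (s : S) (s' : S')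
    (t : R.Hom ((LC.Pr S 1).prod (LC.Pr S' 1)) LC.point)
    (ht : R.comp (R.J (PMap.ofPoint (K := (LC.Pr S 1).prod (LC.Pr S' 1))
      (Pr.line s, Pr.line s'))) t = R.J (PMap.id LC.point)) :
    R.comp (bb o S S' i j) (R.comp (mt t) (xt o S S' (i + j))) =
      ((i + j).choose i) • jh R (CnAdd i j) := by
  have h1 := pw_natural (mt t) (Et o S S') (Et o S S') (mt_E o t _ _) (i + j)
  obtain ⟨e, he⟩ := exists_isPerm (X := (Cn i).prod (Cn j))
    (Y := ((Cn 0).prod (Cn 0)).prod (Cn (i + j))) (by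
      have a1 : dm ((Cn i).prod (Cn j)) = dm (Cn i) + dm (Cn j) := dm_prod _ _
      have a2 : dm (((Cn 0).prod (Cn 0)).prod (Cn (i + j))) =
        dm ((Cn 0).prod (Cn 0)) + dm (Cn (i + j)) := dm_prod _ _
      have a3 : dm ((Cn 0).prod (Cn 0)) = dm (Cn 0) + dm (Cn 0) := dm_prod _ _
      rw [a1, a2, a3]
      simp only [dm_Cn]
      omega)
  have h2 := hF.binom (i + j) i j (by omega) (by omega) rfl e he
  have h3 : R.comp (bb o S S' 0 0) t =
      jh R (K := (Cn 0).prod (Cn 0)) (L := LC.point) (LC.lunit LC.point) := by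
    have e1 : bb o S S' 0 0 = R.comp (jh R (K := LC.point.prod LC.point) (LC.lunit LC.point))
        (R.J (PMap.ofPoint (K := (LC.Pr S 1).prod (LC.Pr S' 1)) (Pr.line s, Pr.line s'))) :=
      bb_zero_aux (o.b S 0) (o.b S' 0) s s' (o.b_zero S s) (o.b_zero S' s')
    rw [e1]
    refine (R.assoc _ _ t).trans ?_
    rw [ht]
    exact R.comp_id _
  rw [xt_eq, ← R.assoc (mt t), h1, R.assoc, ← R.assoc (R.tens (mt t) _), ← R.tens_comp,
    mt_toPoint, ← R.assoc, h2, nsmul_comp]
  congr 1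
  rw [R.assoc, ← R.assoc (R.tens _ _), ← R.tens_comp, h3, tens_jh, ← jh_trans, ← jh_trans]
  refine IsPerm.jh_eq R ?_ (CnAdd_perm i j)
  refine he.trans (((IsPerm.prodCongr ?_ (IsPerm.refl (Cn (i + j)))).trans
    ((IsPerm.prodComm LC.point (Cn (i + j))).trans (IsPerm.prodPUnit (Cn (i + j))))).of_eq
      fun _ => rfl)
  exact (IsPerm.prodPUnit LC.point).of_eq fun _ => rfl

end

end Pool.Agent.Helper62.Stab.T2
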