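import Pool.Agent.Helper62.Stab.PB2

/-! Projective bundles: change of the bundle, restriction, constant bundles. -/

open Topology Filter Set Matrix

noncomputable section

namespace Pool.Agent.Helper62.Stab

open Pool.Agent.Helper1.Stab
open Pool.Agent.Helper39.Stab (J_homeo J_homeo_symm J_homeo_symm' tens_homeo ltens_homeo ltens_J
  ltens_comp ltens_id tens_id tens_tens' tens_exch exch' ltens_exch tens_swap_nf asc)

/-! ## Projective bundles -/

section PV
variable {X : LC} {S : Type} [Fintype S] {n : ℕ}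

theorem pv_closed (V : X → Pr S n) (hV : Continuous V) :
    IsClosed {x : X.prod (LC.Pr S 1) | (V x.1).1 * x.2.1 = x.2.1} := by
  refine isClosed_eq ?_ (continuous_subtype_val.comp continuous_snd)
  exact (continuous_subtype_val.comp (hV.comp continuous_fst)).matrix_mul
    (continuous_subtype_val.comp continuous_snd)

/-- the projective bundle -/
def pv (V : X → Pr S n) (hV : Continuous V) : LC :=
  (X.prod (LC.Pr S 1)).closed {x | (V x.1).1 * x.2.1 = x.2.1} (pv_closed V hV)

/-- the points of a projective bundle -/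
def pvin (V : X → Pr S n) (hV : Continuous V) : pv V hV → X × Pr S 1 :=
  Subtype.val (p := fun x : X × Pr S 1 => (V x.1).1 * x.2.1 = x.2.1)

theorem pvin_cont (V : X → Pr S n) (hV : Continuous V) : Continuous (pvin V hV) :=
  continuous_subtype_val (p := fun x : X × Pr S 1 => (V x.1).1 * x.2.1 = x.2.1)

theorem pvin_mem (V : X → Pr S n) (hV : Continuous V) (y : pv V hV) :
    (V (pvin V hV y).1).1 * (pvin V hV y).2.1 = (pvin V hV y).2.1 := y.2

/-- constructor -/
def pvmk (V : X → Pr S n) (hV : Continuous V) (x : X) (l : Pr S 1) (h : (V x).1 * l.1 = l.1) :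
    pv V hV := ⟨(x, l), h⟩

theorem pv_ext {V : X → Pr S n} {hV : Continuous V} {y y' : pv V hV}
    (h : pvin V hV y = pvin V hV y') : y = y' := Subtype.ext h

/-- the projection -/
def pvp (V : X → Pr S n) (hV : Continuous V) : C(pv V hV, X) :=
  ⟨fun y => (pvin V hV y).1, continuous_fst.comp (pvin_cont V hV)⟩

theorem pvp_proper (V : X → Pr S n) (hV : Continuous V) :
    Tendsto (pvp V hV) (cocompact (pv V hV)) (cocompact X) := by
  have h1 : Tendsto (pvin V hV) (cocompact (pv V hV)) (cocompact (X × Pr S 1)) :=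
    (pv_closed V hV).isClosedEmbedding_subtypeVal.tendsto_cocompact
  have h2 : Tendsto (Prod.fst : X × Pr S 1 → X) (cocompact (X × Pr S 1)) (cocompact X) := by
    intro s hs
    obtain ⟨C, hC, hCs⟩ := mem_cocompact.1 hs
    refine mem_map.2 (mem_cocompact.2 ⟨C ×ˢ univ, hC.prod isCompact_univ, ?_⟩)
    rintro ⟨x, l⟩ h
    exact hCs fun hx => h ⟨hx, mem_univ _⟩
  exact h2.comp h1

/-- the tautological line -/
def pvl (V : X → Pr S n) (hV : Continuous V) (y : pv V hV) : Pr S 1 := (pvin V hV y).2

theorem pvl_cont (V : X → Pr S n) (hV : Continuous V) : Continuous (pvl V hV) :=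
  continuous_snd.comp (pvin_cont V hV)

variable {R : Biv} (o : Orient R) {N : ℕ} {D : LC} (inc : ∀ i : Fin N, PMap (Cn i) D.plus)

/-- the class of a projective bundle -/
def psiV (V : X → Pr S n) (hV : Continuous V) : R.Hom (pv V hV) (X.prod D) :=
  psi o inc (PMap.ofProper (pvp V hV) (pvp V hV).continuous (pvp_proper V hV)) (pvl V hV)
    (pvl_cont V hV)

/-- the line `w l w*` -/
def cl {T : Type} [Fintype T] (P : Pr S n) (w : Matrix T S ℂ) (h : wᴴ * w = P.1) (l : Pr S 1)
    (hl : P.1 * l.1 = l.1) : Pr T 1 :=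
  prOf l (w * l.1) (by
    rw [conjTranspose_mul, Matrix.mul_assoc, ← Matrix.mul_assoc wᴴ, h, hl, l.2.1, l.2.2.1])

theorem cl_val {T : Type} [Fintype T] (P : Pr S n) (w : Matrix T S ℂ) (h : wᴴ * w = P.1)
    (l : Pr S 1) (hl : P.1 * l.1 = l.1) : (cl P w h l hl).1 = w * l.1 * wᴴ := by
  change w * l.1 * (w * l.1)ᴴ = _
  rw [conjTranspose_mul, l.2.1, Matrix.mul_assoc, ← Matrix.mul_assoc l.1, l.2.2.1,
    ← Matrix.mul_assoc]

theorem mul_right_of {P l : Matrix S S ℂ} (hP : Pᴴ = P) (hl : lᴴ = l) (h : P * l = l) :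
    l * P = l := by
  have := congrArg conjTranspose h
  rwa [conjTranspose_mul, hP, hl] at this

/-- an isomorphism of bundles gives a homeomorphism of projective bundles -/
theorem psiV_congr {T : Type} [Fintype T] {m : ℕ} {V : X → Pr S n} (hV : Continuous V)
    {W : X → Pr T m} (hW : Continuous W) (h : UEquiv V W) :
    ∃ e : pv V hV ≃ₜ pv W hW, psiV o inc V hV = R.comp (R.J (PMap.ofHomeo e))
      (psiV o inc W hW) := by
  obtain ⟨w, hw, h1, h2⟩ := h
  have h3 : ∀ x, (w x)ᴴᴴ * (w x)ᴴ = (W x).1 := fun x => by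
    rw [conjTranspose_conjTranspose, h2]
  have hf : ∀ y : pv V hV, (W (pvin V hV y).1).1 *
      (cl (V (pvin V hV y).1) (w (pvin V hV y).1) (h1 _) _ (pvin_mem V hV y)).1 =
      (cl (V (pvin V hV y).1) (w (pvin V hV y).1) (h1 _) _ (pvin_mem V hV y)).1 := by
    intro y
    rw [cl_val, ← h2, ← Matrix.mul_assoc, ← Matrix.mul_assoc, Matrix.mul_assoc (w _), h1,
      Matrix.mul_assoc (w _), pvin_mem]
  have hg : ∀ y : pv W hW, (V (pvin W hW y).1).1 *
      (cl (W (pvin W hW y).1) (w (pvin W hW y).1)ᴴ (h3 _) _ (pvin_mem W hW y)).1 =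
      (cl (W (pvin W hW y).1) (w (pvin W hW y).1)ᴴ (h3 _) _ (pvin_mem W hW y)).1 := by
    intro y
    rw [cl_val, conjTranspose_conjTranspose, ← h1, ← Matrix.mul_assoc, ← Matrix.mul_assoc,
      Matrix.mul_assoc (w _)ᴴ, h2, Matrix.mul_assoc (w _)ᴴ, pvin_mem]
  let e : pv V hV ≃ₜ pv W hW :=
    { toFun := fun y => pvmk W hW (pvin V hV y).1
        (cl (V (pvin V hV y).1) (w (pvin V hV y).1) (h1 _) _ (pvin_mem V hV y)) (hf y)
      invFun := fun y => pvmk V hV (pvin W hW y).1
        (cl (W (pvin W hW y).1) (w (pvin W hW y).1)ᴴ (h3 _) _ (pvin_mem W hW y)) (hg y)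
      left_inv := by
        rintro ⟨⟨x, l⟩, hl⟩
        refine pv_ext (Prod.ext rfl (Subtype.ext ?_))
        change (V x).1 * l.1 = l.1 at hl
        have hl' : l.1 * (V x).1 = l.1 := mul_right_of (V x).2.1 l.2.1 hl
        change (cl (W x) (w x)ᴴ (h3 x) (cl (V x) (w x) (h1 x) l hl) (hf ⟨(x, l), hl⟩)).1 = l.1
        rw [cl_val, cl_val, conjTranspose_conjTranspose, ← Matrix.mul_assoc, ← Matrix.mul_assoc,
          h1, hl, Matrix.mul_assoc, h1, hl']
      right_inv := by
        rintro ⟨⟨x, l⟩, hl⟩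
        refine pv_ext (Prod.ext rfl (Subtype.ext ?_))
        change (W x).1 * l.1 = l.1 at hl
        have hl' : l.1 * (W x).1 = l.1 := mul_right_of (W x).2.1 l.2.1 hl
        change (cl (V x) (w x) (h1 x) (cl (W x) (w x)ᴴ (h3 x) l hl) (hg ⟨(x, l), hl⟩)).1 = l.1
        rw [cl_val, cl_val, conjTranspose_conjTranspose, ← Matrix.mul_assoc, ← Matrix.mul_assoc,
          h2, hl, Matrix.mul_assoc, h2, hl']
      continuous_toFun := by
        have hwx : Continuous (fun y : pv V hV => w (pvin V hV y).1 * (pvin V hV y).2.1) :=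
          (hw.comp (continuous_fst.comp (pvin_cont V hV))).matrix_mul
            (continuous_subtype_val.comp (continuous_snd.comp (pvin_cont V hV)))
        refine Continuous.subtype_mk ((continuous_fst.comp (pvin_cont V hV)).prodMk ?_) _
        exact Continuous.subtype_mk (hwx.matrix_mul hwx.matrix_conjTranspose) _
      continuous_invFun := by
        have hwx : Continuous (fun y : pv W hW => (w (pvin W hW y).1)ᴴ * (pvin W hW y).2.1) :=
          ((hw.comp (continuous_fst.comp (pvin_cont W hW))).matrix_conjTranspose).matrix_mul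
            (continuous_subtype_val.comp (continuous_snd.comp (pvin_cont W hW)))
        refine Continuous.subtype_mk ((continuous_fst.comp (pvin_cont W hW)).prodMk ?_) _
        exact Continuous.subtype_mk (hwx.matrix_mul hwx.matrix_conjTranspose) _ }
  have hu : UEquiv (pvl V hV) (fun y => pvl W hW (e y)) := by
    refine ⟨fun y => w (pvin V hV y).1 * (pvin V hV y).2.1, ?_, fun y => ?_, fun y => rfl⟩
    · exact (hw.comp (continuous_fst.comp (pvin_cont V hV))).matrix_mul
        (continuous_subtype_val.comp (continuous_snd.comp (pvin_cont V hV)))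
    · rw [conjTranspose_mul, Matrix.mul_assoc, ← Matrix.mul_assoc _ᴴ (w _), h1, pvin_mem,
        (pvin V hV y).2.2.1, (pvin V hV y).2.2.2.1]
      rfl
  refine ⟨e, ?_⟩
  unfold psiV
  rw [psi_pre o inc (PMap.ofHomeo e) (PMap.ofProper (pvp W hW) (pvp W hW).continuous
    (pvp_proper W hW)) (pvl_cont W hW) (m := fun y => pvl W hW (e y))
    ((pvl_cont W hW).comp e.continuous) (fun y x h => by rw [← OnePoint.coe_injective h]),
    psi_congr o inc _ (pvl_cont V hV) ((pvl_cont W hW).comp e.continuous) hu]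
  rfl

/-- restriction of a projective bundle to a closed subset -/
theorem psiV_closed (V : X → Pr S n) (hV : Continuous V) (s : Set X) (hs : IsClosed s) :
    ∃ e : (pv V hV).closed (pvp V hV ⁻¹' s) (hs.preimage (pvp V hV).continuous) ≃ₜ
      pv (X := X.closed s hs) (fun x => V x.1) (hV.comp continuous_subtype_val),
      psi o inc (clP (pvp V hV) (pvp V hV).continuous (pvp_proper V hV) s hs)
        (fun y => pvl V hV y.1) ((pvl_cont V hV).comp continuous_subtype_val) =
      R.comp (R.J (PMap.ofHomeo e)) (psiV o inc (X := X.closed s hs) (fun x => V x.1)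
        (hV.comp continuous_subtype_val)) := by
  let e : (pv V hV).closed (pvp V hV ⁻¹' s) (hs.preimage (pvp V hV).continuous) ≃ₜ
      pv (X := X.closed s hs) (fun x => V x.1) (hV.comp continuous_subtype_val) :=
    { toFun := fun y => ⟨(⟨y.1.1.1, y.2⟩, y.1.1.2), y.1.2⟩
      invFun := fun y => ⟨⟨(y.1.1.1, y.1.2), y.2⟩, y.1.1.2⟩
      left_inv := fun _ => rfl
      right_inv := fun _ => rfl
      continuous_toFun := by
        have h1 : Continuous (fun y : (pv V hV).closed (pvp V hV ⁻¹' s)
            (hs.preimage (pvp V hV).continuous) => pvin V hV y.1) :=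
          (pvin_cont V hV).comp continuous_subtype_val
        exact Continuous.subtype_mk (((continuous_fst.comp h1).subtype_mk _).prodMk
          (continuous_snd.comp h1)) _
      continuous_invFun := by
        have h1 : Continuous (pvin (X := X.closed s hs) (fun x => V x.1)
          (hV.comp continuous_subtype_val)) := pvin_cont _ _
        exact Continuous.subtype_mk (Continuous.subtype_mk
          ((continuous_subtype_val.comp (continuous_fst.comp h1)).prodMk
            (continuous_snd.comp h1)) _) _ }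
  refine ⟨e, ?_⟩
  unfold psiV
  rw [psi_pre o inc (PMap.ofHomeo e) (PMap.ofProper _ (pvp (X := X.closed s hs)
    (fun x => V x.1) (hV.comp continuous_subtype_val)).continuous (pvp_proper _ _))
    (pvl_cont _ _) (m := fun y => pvl V hV y.1) ((pvl_cont V hV).comp continuous_subtype_val)
    (fun y x h => by rw [← OnePoint.coe_injective h]; rfl)]
  rfl

end PV

/-! ## Constant bundles -/

section Const
variable {R : Biv} (o : Orient R) {N : ℕ} {D : LC} (inc : ∀ i : Fin N, PMap (Cn i) D.plus)

/-- the class of the projective space of `ℂ^T` -/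
def psiT (T : Type) [Fintype T] : R.Hom (LC.Pr T 1) (LC.point.prod D) :=
  psi o inc (PMap.toPoint (LC.Pr T 1)) (fun P => P) continuous_id

/-- the class of a trivial bundle is the product of `X` with the class of the projective space -/
theorem psiV_const (X : LC) (T : Type) [Fintype T] :
    ∃ e : pv (X := X) (fun _ => prOne T) continuous_const ≃ₜ X.prod (LC.Pr T 1),
      psiV o inc (X := X) (fun _ => prOne T) continuous_const =
      R.comp (R.J (PMap.ofHomeo e)) (R.comp (R.ltens X (psiT o inc T))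
        (R.J (PMap.ofHomeo (K := X.prod (LC.point.prod D)) (L := X.prod D)
          ((Homeomorph.refl X).prodCongr (Homeomorph.punitProd D))))) := by
  classical
  let V : X → Pr T (Fintype.card T) := fun _ => prOne T
  have hV : Continuous V := continuous_const
  let e : pv V hV ≃ₜ X.prod (LC.Pr T 1) :=
    { toFun := pvin V hV
      invFun := fun x => pvmk V hV x.1 x.2 (by
        change (prOne T).1 * _ = _
        rw [prOne_val, Matrix.one_mul])
      left_inv := fun _ => pv_ext rfl
      right_inv := fun _ => rfl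
      continuous_toFun := pvin_cont V hV
      continuous_invFun := by
        exact Continuous.subtype_mk (continuous_fst.prodMk continuous_snd) _ }
  refine ⟨e, ?_⟩
  have h1 : psiV o inc V hV = R.comp (R.J (PMap.ofHomeo e)) (psi o inc (X := X)
      ((PMap.ofHomeo (Homeomorph.prodPUnit X : X.prod LC.point ≃ₜ X)).comp
        (PMap.ltens X (PMap.toPoint (LC.Pr T 1)))) (fun x => x.2) continuous_snd) := by
    exact (psi_pre o inc (PMap.ofHomeo e)
      ((PMap.ofHomeo (Homeomorph.prodPUnit X : X.prod LC.point ≃ₜ X)).comp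
        (PMap.ltens X (PMap.toPoint (LC.Pr T 1)))) (l := fun x : X × Pr T 1 => x.2) continuous_snd
      (m := pvl V hV) (pvl_cont V hV) (fun y x h => by
        rw [← OnePoint.coe_injective h]; rfl)).symm
  change psiV o inc V hV = _
  rw [h1, ← psi_post]
  refine congrArg (R.comp _) ?_
  unfold psiT
  rw [psi_ltens, R.assoc, ← R.J_comp, R.tens_J]
  rfl

/-- the left unit is natural -/
theorem lunit_nat {K L : LC} (x : R.Hom K L) :
    R.comp (R.ltens LC.point x) (R.J (PMap.ofHomeo (Homeomorph.punitProd L :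
      LC.point.prod L ≃ₜ L))) =
    R.comp (R.J (PMap.ofHomeo (Homeomorph.punitProd K : LC.point.prod K ≃ₜ K))) x := by
  unfold BivData.ltens
  rw [R.assoc, R.assoc, ← R.J_comp]
  have h := Pool.Agent.Helper39.Stab.tens_point' R x
  have e : (PMap.ofHomeo (Homeomorph.punitProd L : LC.point.prod L ≃ₜ L)).comp
      (PMap.ofHomeo (LC.swap L LC.point)) =
      PMap.ofHomeo (Homeomorph.prodPUnit L : L.prod LC.point ≃ₜ L) := rfl
  rw [e, h, ← R.assoc, ← R.J_comp]
  rfl

theorem lunit_nat' {K L : LC} (x : R.Hom K L) :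
    R.comp (R.J (PMap.ofHomeo (K := K) (L := LC.point.prod K) (Homeomorph.punitProd K).symm))
      (R.ltens LC.point x) =
    R.comp x (R.J (PMap.ofHomeo (K := L) (L := LC.point.prod L)
      (Homeomorph.punitProd L).symm)) := by
  have h := lunit_nat x
  have h2 := congrArg (fun z => R.comp (R.J (PMap.ofHomeo (K := K) (L := LC.point.prod K)
    (Homeomorph.punitProd K).symm)) (R.comp z (R.J (PMap.ofHomeo (K := L) (L := LC.point.prod L)
      (Homeomorph.punitProd L).symm)))) h
  simp only [R.assoc] at h2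
  rw [J_homeo_symm R (K := LC.point.prod L) (L := L) (Homeomorph.punitProd L), R.comp_id,
    ← R.assoc (R.J (PMap.ofHomeo (K := K) (L := LC.point.prod K)
    (Homeomorph.punitProd K).symm)) (R.J (PMap.ofHomeo (Homeomorph.punitProd K))),
    J_homeo_symm' R (K := LC.point.prod K) (L := K) (Homeomorph.punitProd K), R.id_comp] at h2
  exact h2

/-- the orientation class vanishes on coordinate points -/
theorem point_u {S : Type} [Fintype S] (s : S) :
    R.comp (R.J (PMap.ofPoint (K := LC.Pr S 1) (Pr.line s))) (o.u S) = 0 := by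
  have h := o.E_const (X := LC.point) s
  unfold Orient.E at h
  have e : graph (X := LC.point) (L := LC.Pr S 1) (fun _ => Pr.line s) continuous_const =
      (PMap.ofHomeo (K := LC.Pr S 1) (L := LC.point.prod (LC.Pr S 1))
        (Homeomorph.punitProd (Pr S 1)).symm).comp
          (PMap.ofPoint (K := LC.Pr S 1) (Pr.line s)) := rfl
  rw [e, R.J_comp, R.assoc, lunit_nat' (R := R) (o.u S)] at h
  have h2 := congrArg (fun z => R.comp z (R.J (PMap.ofHomeo (K := LC.point.prod LC.C)
    (L := LC.C) (Homeomorph.punitProd ℂ)))) h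
  simp only [R.assoc] at h2
  rw [J_homeo_symm' R (K := LC.point.prod LC.C) (L := LC.C) (Homeomorph.punitProd ℂ),
    R.comp_id, Helper9.Stab.z_comp] at h2
  exact h2

/-- `(c, z) ↦ (*, (z, c))` -/
def sgm (i : ℕ) : LC.C.prod (Cn i) ≃ₜ LC.point.prod (Cn (i + 1)) where
  toFun x := (PUnit.unit, ((x.2, x.1) : Cn i × ℂ))
  invFun x := ((show Cn i × ℂ from x.2).2, (show Cn i × ℂ from x.2).1)
  left_inv _ := rfl
  right_inv _ := rfl
  continuous_toFun := by
    exact continuous_const.prodMk (continuous_snd.prodMk continuous_fst)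
  continuous_invFun := by
    exact (continuous_snd.comp continuous_snd).prodMk (continuous_fst.comp continuous_snd)

variable {T : Type} [Fintype T] {K U : LC} [CompactSpace K]

/-- the left side of the key formula -/
theorem key_left {S : Type} [Fintype S] (coll : PMap (LC.Pr S 1) U.plus)
    (j : U → Pr S 1) (hj : Continuous j)
    (hcj : ∀ (y : Pr S 1) (x : U), coll y = ((x : U) : OnePoint U) → y = j x)
    (ured : R.Hom U LC.C) (hu : o.u S = R.comp (R.J coll) ured)
    {l : U → Pr T 1} (hl : Continuous l) (hjl : UEquiv j l) (i : ℕ) :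
    R.comp (o.Epow (X := LC.Pr S 1) (fun P => P) continuous_id (i + 1))
      (R.tens (R.J (PMap.toPoint (LC.Pr S 1))) (Cn (i + 1))) =
    R.comp (R.J coll) (R.comp (o.Epow l hl i) (R.comp (R.tens ured (Cn i))
      (R.J (PMap.ofHomeo (sgm i))))) := by
  have h1 : R.comp (o.E (X := LC.Pr S 1) (fun P => P) continuous_id)
      (R.tens (R.J (PMap.toPoint (LC.Pr S 1))) LC.C) =
      R.comp (R.J coll) (R.comp ured (R.J (PMap.ofHomeo (K := LC.C) (L := LC.point.prod LC.C)
        (Homeomorph.punitProd ℂ).symm))) := by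
    unfold Orient.E
    rw [R.assoc, ← exch' R (R.J (PMap.toPoint (LC.Pr S 1))) (o.u S), ← R.assoc, R.tens_J,
      ← R.J_comp]
    have e : ((PMap.toPoint (LC.Pr S 1)).tens (LC.Pr S 1)).comp (graph (X := LC.Pr S 1)
        (L := LC.Pr S 1) (fun P => P) continuous_id) =
        PMap.ofHomeo (K := LC.Pr S 1) (L := LC.point.prod (LC.Pr S 1))
        (Homeomorph.punitProd (Pr S 1)).symm := rfl
    rw [e, lunit_nat' (R := R) (o.u S), hu, R.assoc]
  rw [Epow_succ, R.assoc, R.assoc]
  have h2 : R.comp (R.J (PMap.ofHomeo (eshn (LC.Pr S 1) i)))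
      (R.tens (R.J (PMap.toPoint (LC.Pr S 1))) (Cn (i + 1))) =
      R.comp (R.tens (R.tens (R.J (PMap.toPoint (LC.Pr S 1))) LC.C) (Cn i))
        (R.J (PMap.ofHomeo (eshn LC.point i))) := by
    rw [R.tens_J, R.tens_J, R.tens_J, ← R.J_comp, ← R.J_comp]
    rfl
  rw [h2, ← R.assoc (R.tens _ _) (R.tens _ _), ← R.tens_comp, h1, R.tens_comp, R.tens_comp,
    R.assoc, R.assoc, ← R.assoc, ← Epow_natural o coll hj (m := fun P => P) continuous_id hcj,
    R.assoc,
    Epow_congr o hj hl hjl, R.tens_J, ← R.J_comp]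
  rfl

/-- the right side of the key formula -/
theorem key_right (ured : R.Hom U LC.C) {π : U → Pr T 1} (hπ : Continuous π) (i : ℕ) :
    R.comp (R.comp (R.J (graph (L := LC.Pr T 1) π hπ))
      (R.comp (R.J (PMap.ofHomeo (LC.swap _ _))) (R.ltens (LC.Pr T 1) ured)))
      (R.comp (R.tens (R.comp (o.Epow (X := LC.Pr T 1) (fun P => P) continuous_id i)
        (R.tens (R.J (PMap.toPoint (LC.Pr T 1))) (Cn i))) LC.C)
        (R.J (PMap.ofHomeo (asc LC.point (Cn i) LC.C)))) =
    R.comp (o.Epow π hπ i) (R.comp (R.tens ured (Cn i)) (R.J (PMap.ofHomeo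
      (K := LC.C.prod (Cn i)) (L := LC.point.prod ((Cn i).prod LC.C)) (sgm i)))) := by
  set y := R.comp (o.Epow (X := LC.Pr T 1) (fun P => P) continuous_id i)
    (R.tens (R.J (PMap.toPoint (LC.Pr T 1))) (Cn i)) with hy
  rw [R.assoc, R.assoc, ← R.assoc (R.ltens _ ured), ← exch' R y ured, ← R.assoc, ← R.J_comp]
  have h1 : R.tens y U = R.comp (o.Epow (X := (LC.Pr T 1).prod U) (fun x => x.1)
      continuous_fst i) (R.comp (R.J (PMap.ofHomeo (LC.rr (LC.Pr T 1) U (Cn i))))
      (R.tens (R.tens (R.J (PMap.toPoint (LC.Pr T 1))) (Cn i)) U)) := by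
    rw [hy, R.tens_comp, tens_Epow, R.assoc]
  have h2 : R.comp (R.J ((PMap.ofHomeo (LC.swap U (LC.Pr T 1))).comp
      (graph (L := LC.Pr T 1) π hπ))) (R.tens y U) = R.comp (o.Epow π hπ i)
      (R.J (PMap.ofHomeo (K := U.prod (Cn i)) (L := (LC.point.prod (Cn i)).prod U)
        { toFun := fun x => ((PUnit.unit, x.2), x.1)
          invFun := fun x => (x.2, x.1.2)
          left_inv := fun _ => rfl
          right_inv := fun _ => rfl
          continuous_toFun := by fun_prop
          continuous_invFun := by fun_prop })) := by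
    rw [h1, ← R.assoc, Epow_natural o ((PMap.ofHomeo (LC.swap U (LC.Pr T 1))).comp
      (graph (L := LC.Pr T 1) π hπ)) (l := fun x : Pr T 1 × U => x.1) continuous_fst
      (m := π) hπ (fun y x h => by
        have := OnePoint.coe_injective h
        rw [← this]
        rfl), R.assoc, R.tens_J, R.tens_J, R.tens_J, ← R.J_comp, ← R.J_comp]
    rfl
  rw [R.assoc, ← R.assoc _ (R.tens y U), h2, R.assoc]
  refine congrArg (R.comp _) ?_
  unfold BivData.ltens
  have h3 := tens_exch R ured (PMap.ofHomeo (K := Cn i) (L := LC.point.prod (Cn i))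
    (Homeomorph.punitProd (Cn i)).symm)
  have h4 : R.comp (R.J (PMap.ofHomeo (K := U.prod (Cn i)) (L := (LC.point.prod (Cn i)).prod U)
        { toFun := fun x => ((PUnit.unit, x.2), x.1)
          invFun := fun x => (x.2, x.1.2)
          left_inv := fun _ => rfl
          right_inv := fun _ => rfl
          continuous_toFun := by fun_prop
          continuous_invFun := by fun_prop }))
      (R.J (PMap.ofHomeo (LC.swap (LC.point.prod (Cn i)) U))) =
      R.J (PMap.ltens U (PMap.ofHomeo (K := Cn i) (L := LC.point.prod (Cn i))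
        (Homeomorph.punitProd (Cn i)).symm)) := by
    rw [← R.J_comp]
    rfl
  rw [R.assoc, R.assoc, ← R.assoc, h4, ← R.assoc, ← h3, R.assoc, ← R.J_comp, ← R.J_comp]
  rfl

/-- a diagonal class is invertible -/
theorem sum_inv {M : LC} (p : K) (coll : PMap K U.plus) (r : R.Hom U K)
    (hr : R.comp r (R.J coll) = R.J (PMap.id U))
    (hcr : R.comp (R.J coll) r = R.J (PMap.id K) - R.comp (R.J (PMap.toPoint K))
      (R.J (PMap.ofPoint p)))
    (h0 : coll p = OnePoint.infty) (g : R.Hom U M) (g' : R.Hom M U)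
    (hg : R.comp g g' = R.J (PMap.id U)) (hg' : R.comp g' g = R.J (PMap.id M)) :
    R.comp (R.comp (R.J (PMap.toPoint K)) (R.J (PMap.inl LC.point M)) +
      R.comp (R.J coll) (R.comp g (R.J (PMap.inr LC.point M))))
      (R.comp (R.J (pr1 LC.point M)) (R.J (PMap.ofPoint p)) +
        R.comp (R.J (pr2 LC.point M)) (R.comp g' r)) = R.J (PMap.id K) ∧
    R.comp (R.comp (R.J (pr1 LC.point M)) (R.J (PMap.ofPoint p)) +
        R.comp (R.J (pr2 LC.point M)) (R.comp g' r))
      (R.comp (R.J (PMap.toPoint K)) (R.J (PMap.inl LC.point M)) +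
      R.comp (R.J coll) (R.comp g (R.J (PMap.inr LC.point M)))) =
      R.J (PMap.id (LC.point.sum M)) := by
  have hpc : R.comp (R.J (PMap.ofPoint p)) (R.J coll) = 0 := by
    rw [← R.J_comp, ← R.J_zero]
    congr 1
    ext x
    exact h0
  have hpt : R.comp (R.J (PMap.ofPoint p)) (R.J (PMap.toPoint K)) = R.J (PMap.id LC.point) := by
    rw [← R.J_comp]
    rfl
  have hrt : R.comp r (R.J (PMap.toPoint K)) = 0 := by
    have h1 : R.comp (R.comp r (R.J coll)) r = r := by rw [hr, R.id_comp]
    rw [R.assoc, hcr, Helper9.Stab.c_sub, R.comp_id, sub_eq_self, ← R.assoc] at h1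
    have h2 := congrArg (fun z => R.comp z (R.J (PMap.toPoint K))) h1
    simp only [R.assoc] at h2
    rw [hpt, R.comp_id, Helper9.Stab.z_comp] at h2
    exact h2
  constructor
  · have e1 : R.comp (R.comp (R.J (PMap.toPoint K)) (R.J (PMap.inl LC.point M)))
        (R.comp (R.J (pr1 LC.point M)) (R.J (PMap.ofPoint p))) =
        R.comp (R.J (PMap.toPoint K)) (R.J (PMap.ofPoint p)) := by
      rw [R.assoc, ← R.assoc (R.J (PMap.inl LC.point M)), inl_pr1, R.id_comp]
    have e2 : R.comp (R.comp (R.J (PMap.toPoint K)) (R.J (PMap.inl LC.point M)))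
        (R.comp (R.J (pr2 LC.point M)) (R.comp g' r)) = 0 := by
      rw [R.assoc, ← R.assoc (R.J (PMap.inl LC.point M)), inl_pr2, Helper9.Stab.z_comp,
        Helper9.Stab.c_zero]
    have e3 : R.comp (R.comp (R.J coll) (R.comp g (R.J (PMap.inr LC.point M))))
        (R.comp (R.J (pr1 LC.point M)) (R.J (PMap.ofPoint p))) = 0 := by
      rw [R.assoc, R.assoc, ← R.assoc (R.J (PMap.inr LC.point M)), inr_pr1, Helper9.Stab.z_comp,
        Helper9.Stab.c_zero, Helper9.Stab.c_zero]
    have e4 : R.comp (R.comp (R.J coll) (R.comp g (R.J (PMap.inr LC.point M))))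
        (R.comp (R.J (pr2 LC.point M)) (R.comp g' r)) = R.comp (R.J coll) r := by
      rw [R.assoc, R.assoc, ← R.assoc (R.J (PMap.inr LC.point M)), inr_pr2, R.id_comp,
        ← R.assoc g, hg, R.id_comp]
    rw [R.comp_add, R.add_comp, R.add_comp, e1, e2, e3, e4, hcr]
    abel
  · have e1 : R.comp (R.comp (R.J (pr1 LC.point M)) (R.J (PMap.ofPoint p)))
        (R.comp (R.J (PMap.toPoint K)) (R.J (PMap.inl LC.point M))) =
        R.comp (R.J (pr1 LC.point M)) (R.J (PMap.inl LC.point M)) := by
      rw [R.assoc, ← R.assoc (R.J (PMap.ofPoint p)), hpt, R.id_comp]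
    have e2 : R.comp (R.comp (R.J (pr1 LC.point M)) (R.J (PMap.ofPoint p)))
        (R.comp (R.J coll) (R.comp g (R.J (PMap.inr LC.point M)))) = 0 := by
      rw [R.assoc, ← R.assoc (R.J (PMap.ofPoint p)), hpc, Helper9.Stab.z_comp,
        Helper9.Stab.c_zero]
    have e3 : R.comp (R.comp (R.J (pr2 LC.point M)) (R.comp g' r))
        (R.comp (R.J (PMap.toPoint K)) (R.J (PMap.inl LC.point M))) = 0 := by
      rw [R.assoc, R.assoc, ← R.assoc r, hrt, Helper9.Stab.z_comp,
        Helper9.Stab.c_zero, Helper9.Stab.c_zero]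
    have e4 : R.comp (R.comp (R.J (pr2 LC.point M)) (R.comp g' r))
        (R.comp (R.J coll) (R.comp g (R.J (PMap.inr LC.point M)))) =
        R.comp (R.J (pr2 LC.point M)) (R.J (PMap.inr LC.point M)) := by
      rw [R.assoc, R.assoc, ← R.assoc r, hr, R.id_comp, ← R.assoc g', hg', R.id_comp]
    rw [R.comp_add, R.add_comp, R.add_comp, e1, e2, e3, e4, sum_id]
    abel

end Const

/-! ## Stages -/

/-- types with `j` elements -/
def OT : ℕ → Type
  | 0 => PEmpty
  | j + 1 => Option (OT j)

instance instOT : ∀ j : ℕ, Fintype (OT j)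
  | 0 => (inferInstance : Fintype PEmpty)
  | j + 1 => @instFintypeOption (OT j) (instOT j)

instance : IsEmpty (OT 0) := (inferInstance : IsEmpty PEmpty)

/-- no lines on the zero space -/
theorem pr_empty {S : Type} [Fintype S] [IsEmpty S] {n : ℕ} (P : Pr S n) : n = 0 := by
  have h := P.2.2.2
  rw [Matrix.trace, Finset.univ_eq_empty, Finset.sum_empty] at h
  exact_mod_cast h.symm

/-- sum with the zero space -/
theorem uequiv_stb0 {X S : Type} [TopologicalSpace X] [Fintype S] {n : ℕ} (V : X → Pr S n)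
    (hV : Continuous V) (T : Type) [Fintype T] [IsEmpty T] : UEquiv V (stb V T) := by
  classical
  have hE : ∀ i j, Continuous (fun x => (V x).1 i j) := fun i j =>
    (continuous_subtype_val.comp hV).matrix_elem i j
  refine ⟨fun x => fun y s => Sum.elim (fun i => (V x).1 i s) (fun t => isEmptyElim t) y,
    ?_, fun x => ?_, fun x => ?_⟩
  · refine continuous_pi fun y => continuous_pi fun s => ?_
    rcases y with i | t
    · exact hE i s
    · exact isEmptyElim t
  · ext i j
    rw [Matrix.mul_apply, Fintype.sum_sum_type, Finset.univ_eq_empty (α := T), Finset.sum_empty,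
      add_zero]
    simp only [conjTranspose_apply, Sum.elim_inl, pr_star]
    exact pr_mul (V x) i j
  · rw [stb_val]
    ext i j
    rcases i with i | i
    · rcases j with j | j
      · rw [Matrix.mul_apply, fromBlocks_apply₁₁]
        simp only [conjTranspose_apply, Sum.elim_inl, pr_star]
        exact pr_mul (V x) i j
      · exact isEmptyElim j
    · exact isEmptyElim i

/-- `pt ⊔ ((pt × D_m) × ℂ) = pt × D_(m+1)`, for `D_m = ⊔_(i<m) ℂ^i` -/
def shH (m : ℕ) : PUnit.{1} ⊕ ((PUnit.{1} × (Σ i : Fin m, Cn i)) × ℂ) ≃ₜ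
    PUnit.{1} × (Σ i : Fin (m + 1), Cn i) where
  toFun := Sum.elim (fun x => (x, ⟨0, PUnit.unit⟩))
    (fun y => (y.1.1, ⟨y.1.2.1.succ, ((y.1.2.2, y.2) : Cn y.1.2.1 × ℂ)⟩))
  invFun x := Fin.cases (motive := fun i => Cn i →
      PUnit.{1} ⊕ ((PUnit.{1} × (Σ i : Fin m, Cn i)) × ℂ)) (fun _ => Sum.inl PUnit.unit)
    (fun i z => Sum.inr ((PUnit.unit, ⟨i, (show Cn i × ℂ from z).1⟩),
      (show Cn i × ℂ from z).2)) x.2.1 x.2.2
  left_inv := by
    rintro (x | ⟨⟨x, ⟨i, z⟩⟩, c⟩) <;> rfl
  right_inv := by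
    rintro ⟨x, ⟨i, z⟩⟩
    induction i using Fin.cases with
    | zero => rfl
    | succ i => rfl
  continuous_toFun := by
    refine Continuous.sumElim (continuous_id.prodMk continuous_const) ?_
    refine Continuous.prodMk (continuous_fst.comp continuous_fst) ?_
    have h1 : Continuous (fun y : Σ i : Fin m, (Cn i × ℂ) =>
        (⟨y.1.succ, y.2⟩ : Σ i : Fin (m + 1), Cn i)) :=
      continuous_sigma fun i => continuous_sigmaMk (σ := fun i : Fin (m + 1) => ((Cn i : LC) : Type))
        (i := i.succ)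
    have h2 : Continuous (fun y : (PUnit.{1} × (Σ i : Fin m, Cn i)) × ℂ =>
        (Homeomorph.sigmaProdDistrib (X := fun i : Fin m => ((Cn i : LC) : Type)) (Y := ℂ))
          (y.1.2, y.2)) :=
      (Homeomorph.continuous _).comp (by fun_prop)
    exact h1.comp h2
  continuous_invFun := by
    have h1 : Continuous (fun x : Σ i : Fin (m + 1), Cn i =>
      Fin.cases (motive := fun i => Cn i →
        PUnit.{1} ⊕ ((PUnit.{1} × (Σ i : Fin m, Cn i)) × ℂ)) (fun _ => Sum.inl PUnit.unit)
      (fun i z => Sum.inr ((PUnit.unit, ⟨i, (show Cn i × ℂ from z).1⟩),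
        (show Cn i × ℂ from z).2)) x.1 x.2) := by
      refine continuous_sigma fun i => ?_
      induction i using Fin.cases with
      | zero => exact continuous_const
      | succ i =>
        refine continuous_inr.comp (Continuous.prodMk (Continuous.prodMk continuous_const ?_) ?_)
        · exact (continuous_sigmaMk (σ := fun i : Fin m => ((Cn i : LC) : Type)) (i := i)).comp
            (continuous_fst (X := Cn i) (Y := ℂ))
        · exact continuous_snd (X := Cn i) (Y := ℂ)
    exact h1.comp continuous_snd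

end Pool.Agent.Helper62.Stab
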