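import Pool.Agent.Helper1.Stab.Proj
import Pool.Agent.Helper39.Stab.Ltens
import Pool.Agent.Helper9.Stab.BivL

/-! The operators of line bundles: products with spaces, and the classes of a space with a line
bundle over a base. -/

open Topology Filter Set Matrix

noncomputable section

namespace Pool.Agent.Helper62.Stab

open Pool.Agent.Helper1.Stab
open Pool.Agent.Helper39.Stab (J_homeo J_homeo_symm J_homeo_symm' tens_homeo ltens_homeo ltens_J
  ltens_comp ltens_id tens_id tens_tens' tens_exch exch' ltens_exch tens_swap_nf asc)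

section Basic
variable (R : Biv)

/-- change of the order of two passive factors -/
theorem tens_rr {K L : LC} (x : R.Hom K L) (A B : LC) :
    R.comp (R.tens (R.tens x A) B) (R.J (PMap.ofHomeo (LC.rr L A B))) =
      R.comp (R.J (PMap.ofHomeo (LC.rr K A B))) (R.tens (R.tens x B) A) := by
  rw [tens_tens', tens_tens', tens_swap_nf R x A B]
  simp only [R.assoc]
  have e : ∀ {A' B' C' D' E' F' G' : LC} (f : A' ≃ₜ B') (g : B' ≃ₜ C') (y : R.Hom C' D')
      (k : D' ≃ₜ E') (l : E' ≃ₜ F') (m : F' ≃ₜ G'),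
      R.comp (R.J (PMap.ofHomeo f)) (R.comp (R.J (PMap.ofHomeo g)) (R.comp y
        (R.comp (R.J (PMap.ofHomeo k)) (R.comp (R.J (PMap.ofHomeo l)) (R.J (PMap.ofHomeo m)))))) =
      R.comp (R.J (PMap.ofHomeo (f.trans g))) (R.comp y
        (R.J (PMap.ofHomeo (k.trans (l.trans m))))) := by
    intro A' B' C' D' E' F' G' f g y k l m
    rw [← J_homeo, ← J_homeo, ← J_homeo]
    simp only [R.assoc]
  have e2 : ∀ {A' B' C' D' E' : LC} (f : A' ≃ₜ B') (g : B' ≃ₜ C') (y : R.Hom C' D')
      (k : D' ≃ₜ E'),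
      R.comp (R.J (PMap.ofHomeo f)) (R.comp (R.J (PMap.ofHomeo g)) (R.comp y
        (R.J (PMap.ofHomeo k)))) =
      R.comp (R.J (PMap.ofHomeo (f.trans g))) (R.comp y (R.J (PMap.ofHomeo k))) := by
    intro A' B' C' D' E' f g y k
    rw [← J_homeo]
    simp only [R.assoc]
  rw [e]
  refine Eq.trans ?_ (e2 _ _ _ _).symm
  exact Pool.Agent.Helper39.Stab.comp_homeo_congr R _ (fun _ => rfl) (fun _ => rfl)

theorem tens_zero {K L : LC} (Z : LC) : R.tens (0 : R.Hom K L) Z = 0 := by
  have h := R.tens_add (0 : R.Hom K L) 0 Z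
  rw [add_zero] at h
  exact left_eq_add.1 h

/-- product on the right, as a homomorphism -/
def tensH (K L Z : LC) : R.Hom K L →+ R.Hom (K.prod Z) (L.prod Z) :=
  AddMonoidHom.mk' (fun x => R.tens x Z) (fun x y => R.tens_add x y Z)

theorem comp_sum {ι : Type} (s : Finset ι) {K L M : LC} (x : R.Hom K L) (f : ι → R.Hom L M) :
    R.comp x (∑ i ∈ s, f i) = ∑ i ∈ s, R.comp x (f i) :=
  map_sum (Helper9.Stab.preH R x M) f s

theorem sum_comp {ι : Type} (s : Finset ι) {K L M : LC} (f : ι → R.Hom K L) (y : R.Hom L M) :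
    R.comp (∑ i ∈ s, f i) y = ∑ i ∈ s, R.comp (f i) y :=
  map_sum (Helper9.Stab.postH R y K) f s

theorem tens_sum {ι : Type} (s : Finset ι) {K L : LC} (f : ι → R.Hom K L) (Z : LC) :
    R.tens (∑ i ∈ s, f i) Z = ∑ i ∈ s, R.tens (f i) Z :=
  map_sum (tensH R K L Z) f s

theorem ltens_sum {ι : Type} (s : Finset ι) {K L : LC} (f : ι → R.Hom K L) (Z : LC) :
    R.ltens Z (∑ i ∈ s, f i) = ∑ i ∈ s, R.ltens Z (f i) :=
  map_sum (Helper9.Stab.ltensH R Z K L) f s

/-- The function that separates two summands. -/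
def sepU (K L : LC) : C(K.sum L, ℝ) :=
  ⟨Sum.elim (fun _ => -1) (fun _ => 2), continuous_const.sumElim continuous_const⟩

/-- A class on a disjoint union that vanishes on both parts vanishes. -/
theorem sum_zero {K L M : LC} (x : R.Hom (K.sum L) M) (h1 : R.comp (R.J (PMap.inl K L)) x = 0)
    (h2 : R.comp (R.J (PMap.inr K L)) x = 0) : x = 0 := by
  have hC : IsEmpty (LC.R.prod (MV.C (sepU K L))) := by
    refine ⟨?_⟩
    rintro ⟨-, k | k, hk⟩
    · exact absurd (show (0 : ℝ) ≤ -1 from hk.1) (by norm_num)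
    · exact absurd (show (2 : ℝ) ≤ 1 from hk.2) (by norm_num)
  obtain ⟨y, hy⟩ := R.mv1 (sepU K L) x
    (by
      let eA : MV.A (sepU K L) ≃ₜ K :=
        { toFun := fun x => Sum.rec (motive := fun s => (sepU K L s ≤ 1) → K) (fun k _ => k)
            (fun k hk => absurd (show (2 : ℝ) ≤ 1 from hk) (by norm_num)) x.1 x.2
          invFun := fun k => ⟨Sum.inl k, show (-1 : ℝ) ≤ 1 by norm_num⟩
          left_inv := by
            rintro ⟨k | k, hk⟩
            · rfl
            · exact absurd (show (2 : ℝ) ≤ 1 from hk) (by norm_num)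
          right_inv := fun _ => rfl
          continuous_toFun := by
            rw [continuous_def]
            intro V hV
            have h3 : IsOpen (Sum.inl '' V : Set (K ⊕ L)) :=
              IsOpenEmbedding.inl.isOpenMap _ hV
            refine ⟨_, h3, ?_⟩
            ext ⟨k | k, hk⟩
            · constructor
              · rintro ⟨k', hk', h⟩
                rw [← Sum.inl_injective h]
                exact hk'
              · intro h
                exact ⟨k, h, rfl⟩
            · exact absurd (show (2 : ℝ) ≤ 1 from hk) (by norm_num)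
          continuous_invFun := continuous_inl.subtype_mk _ }
      have e : MV.iA (sepU K L) = (PMap.inl K L).comp (PMap.ofHomeo eA) := by
        ext s
        obtain ⟨k | k, hk⟩ := s
        · rfl
        · exact absurd (show (2 : ℝ) ≤ 1 from hk) (by norm_num)
      rw [e, R.J_comp, R.assoc, h1, Helper9.Stab.c_zero])
    (by
      let eB : MV.B (sepU K L) ≃ₜ L :=
        { toFun := fun x => Sum.rec (motive := fun s => (0 ≤ sepU K L s) → L)
            (fun k hk => absurd (show (0 : ℝ) ≤ -1 from hk) (by norm_num))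
            (fun k _ => k) x.1 x.2
          invFun := fun k => ⟨Sum.inr k, show (0 : ℝ) ≤ 2 by norm_num⟩
          left_inv := by
            rintro ⟨k | k, hk⟩
            · exact absurd (show (0 : ℝ) ≤ -1 from hk) (by norm_num)
            · rfl
          right_inv := fun _ => rfl
          continuous_toFun := by
            rw [continuous_def]
            intro V hV
            have h3 : IsOpen (Sum.inr '' V : Set (K ⊕ L)) :=
              IsOpenEmbedding.inr.isOpenMap _ hV
            refine ⟨_, h3, ?_⟩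
            ext ⟨k | k, hk⟩
            · exact absurd (show (0 : ℝ) ≤ -1 from hk) (by norm_num)
            · constructor
              · rintro ⟨k', hk', h⟩
                rw [← Sum.inr_injective h]
                exact hk'
              · intro h
                exact ⟨k, h, rfl⟩
          continuous_invFun := continuous_inr.subtype_mk _ }
      have e : MV.iB (sepU K L) = (PMap.inr K L).comp (PMap.ofHomeo eB) := by
        ext s
        obtain ⟨k | k, hk⟩ := s
        · exact absurd (show (0 : ℝ) ≤ -1 from hk) (by norm_num)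
        · rfl
      rw [e, R.J_comp, R.assoc, h2, Helper9.Stab.c_zero])
  rw [hy, Helper9.Stab.hom_empty R hC y, Helper9.Stab.c_zero]

/-- projection to the first summand -/
def pr1 (K L : LC) : PMap (K.sum L) K.plus := (PMap.id K).copair (PMap.zero _ _)

/-- projection to the second summand -/
def pr2 (K L : LC) : PMap (K.sum L) L.plus := (PMap.zero _ _).copair (PMap.id L)

theorem inl_pr1 (K L : LC) : R.comp (R.J (PMap.inl K L)) (R.J (pr1 K L)) = R.J (PMap.id K) := by
  rw [← R.J_comp]; rfl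

theorem inr_pr2 (K L : LC) : R.comp (R.J (PMap.inr K L)) (R.J (pr2 K L)) = R.J (PMap.id L) := by
  rw [← R.J_comp]; rfl

theorem inl_pr2 (K L : LC) : R.comp (R.J (PMap.inl K L)) (R.J (pr2 K L)) = 0 := by
  rw [← R.J_comp, ← R.J_zero]; rfl

theorem inr_pr1 (K L : LC) : R.comp (R.J (PMap.inr K L)) (R.J (pr1 K L)) = 0 := by
  rw [← R.J_comp, ← R.J_zero]; rfl

theorem sum_id (K L : LC) : R.J (PMap.id (K.sum L)) =
    R.comp (R.J (pr1 K L)) (R.J (PMap.inl K L)) + R.comp (R.J (pr2 K L)) (R.J (PMap.inr K L)) := by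
  rw [← sub_eq_zero]
  apply sum_zero
  · rw [Helper9.Stab.c_sub, R.comp_add, ← R.assoc, ← R.assoc, inl_pr1, inl_pr2, R.id_comp,
      R.comp_id, Helper9.Stab.z_comp, add_zero, sub_self]
  · rw [Helper9.Stab.c_sub, R.comp_add, ← R.assoc, ← R.assoc, inr_pr1, inr_pr2, R.id_comp,
      R.comp_id, Helper9.Stab.z_comp, zero_add, sub_self]

end Basic

/-! ## The operators of line bundles -/

section Op
variable {R : Biv} (o : Orient R)

/-- the graph with the factors exchanged -/
def lgr {X L : LC} (f : X → L) (hf : Continuous f) : PMap X (L.prod X).plus :=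
  (PMap.ofHomeo (LC.swap X L)).comp (graph f hf)

theorem E_nf {X : LC} {S : Type} [Fintype S] (l : X → Pr S 1) (hl : Continuous l) :
    o.E l hl = R.comp (R.J (lgr (L := LC.Pr S 1) l hl)) (R.comp (R.tens (o.u S) X)
      (R.J (PMap.ofHomeo (LC.swap LC.C X)))) := by
  unfold Orient.E BivData.ltens lgr
  rw [R.J_comp, R.assoc]

/-- the operator of a line bundle times a space -/
theorem tens_E {X : LC} {S : Type} [Fintype S] (l : X → Pr S 1) (hl : Continuous l) (Z : LC) :
    R.tens (o.E l hl) Z = R.comp (o.E (X := X.prod Z) (fun x => l x.1) (hl.comp continuous_fst))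
      (R.J (PMap.ofHomeo (LC.rr X Z LC.C))) := by
  rw [E_nf, E_nf, R.tens_comp, R.tens_comp, tens_tens', R.tens_J, tens_homeo]
  simp only [R.assoc]
  have e : ∀ {A B C D E F G : LC} (f : PMap A B.plus) (g : PMap B C.plus) (y : R.Hom C D)
      (k : PMap D E.plus) (m : PMap E F.plus),
      R.comp (R.J f) (R.comp (R.J g) (R.comp y (R.comp (R.J k) (R.J m)))) =
      R.comp (R.J (g.comp f)) (R.comp y (R.J (m.comp k))) := by
    intro A B C D E F G f g y k m
    rw [R.J_comp, R.J_comp]
    simp only [R.assoc]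
  have e' : ∀ {A B C D E F : LC} (f : PMap A B.plus) (y : R.Hom B C)
      (k : PMap C D.plus) (m : PMap D E.plus),
      R.comp (R.J f) (R.comp y (R.comp (R.J k) (R.J m))) =
      R.comp (R.J f) (R.comp y (R.J (m.comp k))) := by
    intro A B C D E F f y k m
    rw [R.J_comp]
  rw [e (G := X), e' (F := X)]
  have h1 : (PMap.ofHomeo (asc (LC.Pr S 1) X Z)).comp ((lgr (L := LC.Pr S 1) l hl).tens Z) =
      lgr (X := X.prod Z) (L := LC.Pr S 1) (fun x => l x.1) (hl.comp continuous_fst) := by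
    ext x; rfl
  rw [h1]
  rfl

theorem Epow_zero {X : LC} {S : Type} [Fintype S] (l : X → Pr S 1) (hl : Continuous l) :
    o.Epow l hl 0 = R.J (PMap.ofHomeo (Homeomorph.prodPUnit X).symm) := rfl

/-- `((x, c), z) ↦ (x, (z, c))` -/
def esh (X Z : LC) : (X.prod LC.C).prod Z ≃ₜ X.prod (Z.prod LC.C) where
  toFun x := (x.1.1, (x.2, x.1.2))
  invFun x := ((x.1, x.2.2), x.2.1)
  left_inv _ := rfl
  right_inv _ := rfl
  continuous_toFun := by fun_prop
  continuous_invFun := by fun_prop

/-- the same with target `X × ℂ^(i+1)` -/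
def eshn (X : LC) (i : ℕ) : (X.prod LC.C).prod (Cn i) ≃ₜ X.prod (Cn (i + 1)) := esh X (Cn i)

theorem Epow_succ {X : LC} {S : Type} [Fintype S] (l : X → Pr S 1) (hl : Continuous l) (i : ℕ) :
    o.Epow l hl (i + 1) = R.comp (o.Epow l hl i) (R.comp (R.tens (o.E l hl) (Cn i))
      (R.J (PMap.ofHomeo (eshn X i)))) := rfl

theorem Epow_natural {X Y : LC} {S : Type} [Fintype S] (φ : PMap Y X.plus) {l : X → Pr S 1}
    {m : Y → Pr S 1} (hl : Continuous l) (hm : Continuous m)
    (h : ∀ y x, φ y = ((x : X) : OnePoint X) → m y = l x) (i : ℕ) :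
    R.comp (R.J φ) (o.Epow l hl i) = R.comp (o.Epow m hm i) (R.tens (R.J φ) (Cn i)) := by
  induction i with
  | zero =>
    rw [Epow_zero, Epow_zero, R.tens_J, ← R.J_comp, ← R.J_comp]
    congr 1
  | succ i ih =>
    rw [Epow_succ, Epow_succ, ← R.assoc, ih, R.assoc, R.assoc, ← R.assoc (R.tens (R.J φ) (Cn i)),
      ← R.tens_comp, o.E_natural φ hl hm h, R.tens_comp, R.assoc, R.assoc]
    congr 2
    rw [R.tens_J, R.tens_J, R.tens_J, ← R.J_comp, ← R.J_comp]
    congr 1
    ext ⟨⟨y, c⟩, z⟩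
    change (PMap.ofHomeo (eshn X i)).plus
      (smashPt (X.prod LC.C) (Cn i) (smashPt X LC.C (φ y, _), _)) =
      smashPt X (Cn (i + 1)) (φ y, _)
    rcases φ y with _ | x <;> rfl

theorem Epow_congr {X : LC} {S T : Type} [Fintype S] [Fintype T] {l : X → Pr S 1}
    {m : X → Pr T 1} (hl : Continuous l) (hm : Continuous m) (h : UEquiv l m) (i : ℕ) :
    o.Epow l hl i = o.Epow m hm i := by
  induction i with
  | zero => rfl
  | succ i ih => rw [Epow_succ, Epow_succ, ih, o.E_congr hl hm h]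

theorem tens_Epow {X : LC} {S : Type} [Fintype S] (l : X → Pr S 1) (hl : Continuous l) (Z : LC)
    (i : ℕ) : R.tens (o.Epow l hl i) Z = R.comp (o.Epow (X := X.prod Z) (fun x => l x.1)
      (hl.comp continuous_fst) i) (R.J (PMap.ofHomeo (LC.rr X Z (Cn i)))) := by
  induction i with
  | zero =>
    rw [Epow_zero, Epow_zero, R.tens_J, ← R.J_comp]
    rfl
  | succ i ih =>
    rw [Epow_succ, Epow_succ, R.tens_comp, R.tens_comp, ih, R.assoc, R.assoc]
    congr 1
    have h1 : R.tens (o.E (X := X.prod Z) (fun x => l x.1) (hl.comp continuous_fst)) (Cn i) =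
        R.comp (R.tens (R.tens (o.E l hl) Z) (Cn i))
          (R.tens (R.J (PMap.ofHomeo (LC.rr X LC.C Z))) (Cn i)) := by
      rw [tens_E o l hl Z, R.tens_comp, R.assoc, ← R.tens_comp, J_homeo]
      have : R.tens (R.J (PMap.ofHomeo ((LC.rr X Z LC.C).trans (LC.rr X LC.C Z)))) (Cn i) =
          R.J (PMap.id _) := by
        rw [R.tens_J]
        rfl
      rw [this, R.comp_id]
    rw [h1, R.assoc, ← R.assoc (R.J (PMap.ofHomeo (LC.rr X Z (Cn i)))), ← tens_rr,
      R.assoc, R.assoc]
    refine congrArg (R.comp _) ?_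
    rw [R.tens_J, R.tens_J, ← R.J_comp, ← R.J_comp, ← R.J_comp]
    rfl

theorem ltens_Epow {X : LC} {S : Type} [Fintype S] (l : X → Pr S 1) (hl : Continuous l) (Z : LC)
    (i : ℕ) : R.ltens Z (o.Epow l hl i) = R.comp (o.Epow (X := Z.prod X) (fun x => l x.2)
      (hl.comp continuous_snd) i) (R.J (PMap.ofHomeo (asc Z X (Cn i)))) := by
  unfold BivData.ltens
  rw [tens_Epow, R.assoc, ← R.assoc, Epow_natural o (PMap.ofHomeo (LC.swap Z X))
    (l := fun x : X.prod Z => l x.1) (m := fun x : Z.prod X => l x.2)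
    (hl.comp continuous_fst) (hl.comp continuous_snd) ?_ i, R.assoc, R.tens_J, ← R.J_comp,
    ← R.J_comp]
  · rfl
  · intro y x h
    have := OnePoint.coe_injective h
    rw [← this]
    rfl

/-! ## Classes over a base -/

/-- the class `Y → X × D` of a map `Y → X` and a line bundle over `Y`, where the spaces `ℂ^i`,
`i < N`, are mapped to `D` -/
def psi {X Y : LC} {S : Type} [Fintype S] {N : ℕ} {D : LC}
    (inc : ∀ i : Fin N, PMap (Cn i) D.plus) (p : PMap Y X.plus) (l : Y → Pr S 1)
    (hl : Continuous l) : R.Hom Y (X.prod D) :=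
  ∑ i : Fin N, R.comp (R.comp (o.Epow l hl i) (R.tens (R.J p) (Cn i))) (R.ltens X (R.J (inc i)))

variable {N : ℕ} {D : LC} (inc : ∀ i : Fin N, PMap (Cn i) D.plus)

theorem psi_pre {X Y Y' : LC} {S : Type} [Fintype S] (q : PMap Y' Y.plus) (p : PMap Y X.plus)
    {l : Y → Pr S 1} (hl : Continuous l) {m : Y' → Pr S 1} (hm : Continuous m)
    (h : ∀ y x, q y = ((x : Y) : OnePoint Y) → m y = l x) :
    R.comp (R.J q) (psi o inc p l hl) = psi o inc (p.comp q) m hm := by
  unfold psi
  rw [comp_sum]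
  refine Finset.sum_congr rfl fun i _ => ?_
  rw [← R.assoc, ← R.assoc, Epow_natural o q hl hm h, R.assoc (o.Epow m hm i), ← R.tens_comp,
    ← R.J_comp]

theorem psi_post {X X' Y : LC} {S : Type} [Fintype S] (p : PMap Y X.plus) (r : PMap X X'.plus)
    {l : Y → Pr S 1} (hl : Continuous l) :
    R.comp (psi o inc p l hl) (R.tens (R.J r) D) = psi o inc (r.comp p) l hl := by
  unfold psi
  rw [sum_comp]
  refine Finset.sum_congr rfl fun i _ => ?_
  rw [R.J_comp p r, R.tens_comp, R.assoc, R.assoc, R.assoc, R.assoc]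
  congr 2
  exact (exch' R (R.J r) (R.J (inc i))).symm

theorem psi_congr {X Y : LC} {S T : Type} [Fintype S] [Fintype T] (p : PMap Y X.plus)
    {l : Y → Pr S 1} {m : Y → Pr T 1} (hl : Continuous l) (hm : Continuous m) (h : UEquiv l m) :
    psi o inc p l hl = psi o inc p m hm := by
  unfold psi
  refine Finset.sum_congr rfl fun i _ => ?_
  rw [Epow_congr o hl hm h]

theorem psi_ltens {X Y : LC} {S : Type} [Fintype S] (p : PMap Y X.plus)
    {l : Y → Pr S 1} (hl : Continuous l) (Z : LC) :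
    R.ltens Z (psi o inc p l hl) = R.comp (psi o inc (PMap.ltens Z p) (fun x => l x.2)
      (hl.comp continuous_snd)) (R.J (PMap.ofHomeo (asc Z X D))) := by
  unfold psi
  rw [ltens_sum, sum_comp]
  refine Finset.sum_congr rfl fun i _ => ?_
  rw [ltens_comp, ltens_comp, ltens_Epow]
  simp only [R.assoc]
  congr 1
  rw [R.tens_J, R.tens_J, ltens_J, ltens_J, ltens_J, ltens_J, ← R.J_comp, ← R.J_comp, ← R.J_comp,
    ← R.J_comp]
  congr 1
  ext ⟨⟨z, y⟩, c⟩
  have key : ∀ v : OnePoint X, (PMap.ltens Z (PMap.ltens X (inc i))).plus (smashPt Z (X.prod (Cn i))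
      ((z : OnePoint Z), smashPt X (Cn i) (v, (c : OnePoint (Cn i))))) =
      ((PMap.ofHomeo (asc Z X D)).comp (PMap.ltens (Z.prod X) (inc i))).plus
        (smashPt (Z.prod X) (Cn i) (smashPt Z X ((z : OnePoint Z), v), (c : OnePoint (Cn i)))) := by
    rintro (_ | x)
    · rfl
    · change smashPt Z (X.prod D) (((z : Z) : OnePoint Z),
          smashPt X D ((x : OnePoint X), inc i c)) =
        (PMap.ofHomeo (asc Z X D)).plus (smashPt (Z.prod X) D
          ((((z, x) : Z × X) : OnePoint (Z × X)), inc i c))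
      rcases inc i c with _ | d <;> rfl
  exact key (p y)

end Op

/-! ## Restriction to closed subsets -/

section Restr

/-- the restriction of a proper map over a closed subset -/
def clP {X Y : LC} (p : Y → X) (hp : Continuous p) (hp' : Tendsto p (cocompact Y) (cocompact X))
    (s : Set X) (hs : IsClosed s) :
    PMap (Y.closed (p ⁻¹' s) (hs.preimage hp)) (X.closed s hs).plus :=
  PMap.ofProper (K := Y.closed (p ⁻¹' s) (hs.preimage hp)) (L := X.closed s hs)
    (fun y => ⟨p y.1, y.2⟩) ((hp.comp continuous_subtype_val).subtype_mk _)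
    (MV.proper_aux (g := Subtype.val) continuous_subtype_val
      (hp'.comp (hs.preimage hp).isClosedEmbedding_subtypeVal.tendsto_cocompact))

/-- the product of a closed subset with a space -/
def clD {X : LC} (s : Set X) (hs : IsClosed s) (D : LC) :
    (X.closed s hs).prod D ≃ₜ (X.prod D).closed (Prod.fst ⁻¹' s) (hs.preimage continuous_fst) where
  toFun x := ⟨(x.1.1, x.2), x.1.2⟩
  invFun x := (⟨x.1.1, x.2⟩, x.1.2)
  left_inv _ := rfl
  right_inv _ := rfl
  continuous_toFun := ((continuous_subtype_val.comp continuous_fst).prodMk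
    continuous_snd).subtype_mk _
  continuous_invFun := ((continuous_fst.comp continuous_subtype_val).subtype_mk _).prodMk
    (continuous_snd.comp continuous_subtype_val)

variable {X Y : LC} (u : C(X, ℝ)) (p : C(Y, X)) (hp' : Tendsto p (cocompact Y) (cocompact X))

/-- the part over `u ≤ 1` -/
def pA : PMap (MV.A (u.comp p)) (MV.A u).plus := clP p p.continuous hp' _ (MV.clA u)
/-- the part over `0 ≤ u` -/
def pB : PMap (MV.B (u.comp p)) (MV.B u).plus := clP p p.continuous hp' _ (MV.clB u)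
/-- the part over `0 ≤ u ≤ 1` -/
def pC : PMap (MV.C (u.comp p)) (MV.C u).plus := clP p p.continuous hp' _ (MV.clC u)

/-- the inclusion -/
def vA (v : C(Y, ℝ)) : MV.A v → Y := Subtype.val (p := fun k : Y => v k ≤ 1)
/-- the inclusion -/
def vB (v : C(Y, ℝ)) : MV.B v → Y := Subtype.val (p := fun k : Y => 0 ≤ v k)
/-- the inclusion -/
def vC (v : C(Y, ℝ)) : MV.C v → Y := Subtype.val (p := fun k : Y => 0 ≤ v k ∧ v k ≤ 1)

theorem vA_cont (v : C(Y, ℝ)) : Continuous (vA v) :=
  continuous_subtype_val (p := fun k : Y => v k ≤ 1)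
theorem vB_cont (v : C(Y, ℝ)) : Continuous (vB v) :=
  continuous_subtype_val (p := fun k : Y => 0 ≤ v k)
theorem vC_cont (v : C(Y, ℝ)) : Continuous (vC v) :=
  continuous_subtype_val (p := fun k : Y => 0 ≤ v k ∧ v k ≤ 1)

/-- the function `u` on `X × D` -/
def ufst (u : C(X, ℝ)) (D : LC) : C(X.prod D, ℝ) := u.comp ⟨Prod.fst, continuous_fst⟩

/-- the part `u ≤ 1` of the product -/
def dA (D : LC) : (MV.A u).prod D ≃ₜ MV.A (ufst u D) := clD _ (MV.clA u) D
/-- the part `0 ≤ u` of the product -/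
def dB (D : LC) : (MV.B u).prod D ≃ₜ MV.B (ufst u D) := clD _ (MV.clB u) D
/-- the part `0 ≤ u ≤ 1` of the product -/
def dC (D : LC) : (MV.C u).prod D ≃ₜ MV.C (ufst u D) := clD _ (MV.clC u) D

theorem pA_iA : (PMap.ofProper p p.continuous hp').comp (MV.iA (u.comp p)) =
    (MV.iA u).comp (pA u p hp') := rfl
theorem pB_iB : (PMap.ofProper p p.continuous hp').comp (MV.iB (u.comp p)) =
    (MV.iB u).comp (pB u p hp') := rfl
theorem pC_iCA : (pA u p hp').comp (MV.iCA (u.comp p)) = (MV.iCA u).comp (pC u p hp') := rfl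
theorem pC_iCB : (pB u p hp').comp (MV.iCB (u.comp p)) = (MV.iCB u).comp (pC u p hp') := rfl

theorem pC_delta : (PMap.ltens LC.R (pC u p hp')).comp (MV.delta (u.comp p)) =
    (MV.delta u).comp (PMap.ofProper p p.continuous hp') := by
  ext y
  change (PMap.ltens LC.R (pC u p hp')).plus (MV.deltaFun (u.comp p) y) = MV.deltaFun u (p y)
  by_cases h : 0 < u (p y) ∧ u (p y) < 1
  · rw [MV.deltaFun, dif_pos (show 0 < (u.comp p) y ∧ (u.comp p) y < 1 from h), MV.deltaFun,
      dif_pos h]
    rfl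
  · rw [MV.deltaFun, dif_neg (show ¬ (0 < (u.comp p) y ∧ (u.comp p) y < 1) from h), MV.deltaFun,
      dif_neg h]
    rfl

theorem dA_iA (D : LC) : (MV.iA (ufst u D)).comp (PMap.ofHomeo (dA u D)) =
    (MV.iA u).tens D := rfl
theorem dB_iB (D : LC) : (MV.iB (ufst u D)).comp (PMap.ofHomeo (dB u D)) =
    (MV.iB u).tens D := rfl
theorem dC_iCA (D : LC) : (MV.iCA (ufst u D)).comp (PMap.ofHomeo (dC u D)) =
    (PMap.ofHomeo (dA u D)).comp ((MV.iCA u).tens D) := rfl
theorem dC_iCB (D : LC) : (MV.iCB (ufst u D)).comp (PMap.ofHomeo (dC u D)) =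
    (PMap.ofHomeo (dB u D)).comp ((MV.iCB u).tens D) := rfl

theorem d_delta (D : LC) : MV.delta (ufst u D) =
    (PMap.ltens LC.R (PMap.ofHomeo (dC u D))).comp ((PMap.ofHomeo (asc LC.R (MV.C u) D)).comp
      ((MV.delta u).tens D)) := by
  rw [← PMap.comp_assoc]
  ext ⟨x, d⟩
  change MV.deltaFun (ufst u D) (x, d) = ((PMap.ltens LC.R (PMap.ofHomeo (dC u D))).comp
    (PMap.ofHomeo (asc LC.R (MV.C u) D))).plus (smashPt _ D (MV.deltaFun u x,
      ((d : D) : OnePoint D)))
  by_cases h : 0 < u x ∧ u x < 1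
  · rw [MV.deltaFun, dif_pos (show 0 < ufst u D (x, d) ∧ ufst u D (x, d) < 1 from h), MV.deltaFun,
      dif_pos h]
    rfl
  · rw [MV.deltaFun, dif_neg (show ¬ (0 < ufst u D (x, d) ∧ ufst u D (x, d) < 1) from h),
      MV.deltaFun, dif_neg h]
    rfl

/-- The five equations of the comparison of the Mayer-Vietoris sequences. -/
theorem psi_mv {R : Biv} (o : Orient R) {N : ℕ} {D : LC} (inc : ∀ i : Fin N, PMap (Cn i) D.plus)
    {S : Type} [Fintype S] (l : Y → Pr S 1) (hl : Continuous l)
    {t : R.Hom Y (X.prod D)} (ht : t = psi o inc (PMap.ofProper p p.continuous hp') l hl)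
    {tA : R.Hom (MV.A (u.comp p)) (MV.A (ufst u D))}
    (hA : tA = R.comp (psi o inc (pA u p hp') (fun y => l (vA _ y)) (hl.comp (vA_cont _)))
      (R.J (PMap.ofHomeo (dA u D))))
    {tB : R.Hom (MV.B (u.comp p)) (MV.B (ufst u D))}
    (hB : tB = R.comp (psi o inc (pB u p hp') (fun y => l (vB _ y)) (hl.comp (vB_cont _)))
      (R.J (PMap.ofHomeo (dB u D))))
    {tC : R.Hom (MV.C (u.comp p)) (MV.C (ufst u D))}
    (hC : tC = R.comp (psi o inc (pC u p hp') (fun y => l (vC _ y)) (hl.comp (vC_cont _)))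
      (R.J (PMap.ofHomeo (dC u D)))) :
    (R.comp (R.J (MV.iA (u.comp p))) t = R.comp tA (R.J (MV.iA (ufst u D)))) ∧
    (R.comp (R.J (MV.iB (u.comp p))) t = R.comp tB (R.J (MV.iB (ufst u D)))) ∧
    (R.comp (R.J (MV.iCA (u.comp p))) tA = R.comp tC (R.J (MV.iCA (ufst u D)))) ∧
    (R.comp (R.J (MV.iCB (u.comp p))) tB = R.comp tC (R.J (MV.iCB (ufst u D)))) ∧
    (R.comp t (R.J (MV.delta (ufst u D))) =
      R.comp (R.J (MV.delta (u.comp p))) (R.ltens LC.R tC)) := by
  subst ht hA hB hC
  refine ⟨?_, ?_, ?_, ?_, ?_⟩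
  · rw [psi_pre o inc (MV.iA (u.comp p)) (PMap.ofProper p p.continuous hp') hl
      (m := fun y => l (vA _ y)) (hl.comp (vA_cont _))
      (fun y x h => by rw [← OnePoint.coe_injective h]; rfl), pA_iA, R.assoc, ← R.J_comp, dA_iA,
      ← R.tens_J, psi_post]
  · rw [psi_pre o inc (MV.iB (u.comp p)) (PMap.ofProper p p.continuous hp') hl
      (m := fun y => l (vB _ y)) (hl.comp (vB_cont _))
      (fun y x h => by rw [← OnePoint.coe_injective h]; rfl), pB_iB, R.assoc, ← R.J_comp, dB_iB,
      ← R.tens_J, psi_post]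
  · rw [← R.assoc, psi_pre o inc (MV.iCA (u.comp p)) (pA u p hp')
      (l := fun y => l (vA _ y)) (hl.comp (vA_cont _)) (m := fun y => l (vC _ y))
      (hl.comp (vC_cont _))
      (fun y x h => by rw [← OnePoint.coe_injective h]; rfl), pC_iCA, R.assoc, ← R.J_comp, dC_iCA,
      R.J_comp, ← R.assoc, ← R.tens_J, psi_post]
  · rw [← R.assoc, psi_pre o inc (MV.iCB (u.comp p)) (pB u p hp')
      (l := fun y => l (vB _ y)) (hl.comp (vB_cont _)) (m := fun y => l (vC _ y))
      (hl.comp (vC_cont _))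
      (fun y x h => by rw [← OnePoint.coe_injective h]; rfl), pC_iCB, R.assoc, ← R.J_comp, dC_iCB,
      R.J_comp, ← R.assoc, ← R.tens_J, psi_post]
  · rw [d_delta, R.J_comp, R.J_comp, ← R.tens_J, ← R.assoc, ← R.assoc, psi_post, ltens_comp,
      psi_ltens, ← R.assoc, ← R.assoc, ltens_J]
    congr 2
    rw [psi_pre o inc (MV.delta (u.comp p)) (PMap.ltens LC.R (pC u p hp'))
      (l := fun x : LC.R.prod (MV.C (u.comp p)) => l (vC _ x.2))
      ((hl.comp (vC_cont _)).comp continuous_snd) (m := l) hl ?_, pC_delta]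
    intro y x h
    obtain ⟨h', rfl⟩ := (MV.dA_fun_eq_coe (u.comp p) y x).1 h
    rfl

end Restr

end Pool.Agent.Helper62.Stab
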