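import Pool.Agent.Helper62.Stab.PB1

/-! Unitary equivalences of families of projections, and projective bundles. -/

open Topology Filter Set Matrix

noncomputable section

namespace Pool.Agent.Helper62.Stab

open Pool.Agent.Helper1.Stab
open Pool.Agent.Helper39.Stab (J_homeo J_homeo_symm J_homeo_symm' tens_homeo ltens_homeo ltens_J
  ltens_comp ltens_id tens_id tens_tens' tens_exch exch' ltens_exch tens_swap_nf asc)

/-! ## Partial isometries -/

theorem w_mul {S T : Type} [Fintype S] [Fintype T] {A : Matrix S S ℂ} (hA2 : A * A = A)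
    {w : Matrix T S ℂ} (h : wᴴ * w = A) : w * A = w := by
  classical
  have hA : Aᴴ = A := by
    rw [← h, conjTranspose_mul, conjTranspose_conjTranspose]
  have h0 : (w - w * A)ᴴ * (w - w * A) = 0 := by
    rw [conjTranspose_sub, conjTranspose_mul, hA, Matrix.sub_mul, Matrix.mul_sub, Matrix.mul_sub,
      h, ← Matrix.mul_assoc, h, hA2, Matrix.mul_assoc A, h, hA2, Matrix.mul_assoc A,
      ← Matrix.mul_assoc wᴴ, h, hA2, hA2]
    simp
  have h1 : w - w * A = 0 := by
    open ComplexOrder in
    exact conjTranspose_mul_self_eq_zero.1 h0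
  exact (sub_eq_zero.1 h1).symm

/-- the final projection of a partial isometry -/
def prOf {S T : Type} [Fintype S] [Fintype T] {n : ℕ} (P : Pr S n) (w : Matrix T S ℂ)
    (h : wᴴ * w = P.1) : Pr T n :=
  ⟨w * wᴴ, by
    refine ⟨?_, ?_, ?_⟩
    · rw [conjTranspose_mul, conjTranspose_conjTranspose]
    · rw [Matrix.mul_assoc, ← Matrix.mul_assoc wᴴ, h, ← Matrix.mul_assoc, w_mul P.2.2.1 h]
    · rw [trace_mul_comm, h, P.2.2.2]⟩

theorem uequiv_of {X S T : Type} [TopologicalSpace X] [Fintype S] [Fintype T] {n : ℕ}
    (P : X → Pr S n) (w : X → Matrix T S ℂ) (hw : Continuous w) (h : ∀ x, (w x)ᴴ * w x = (P x).1) :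
    UEquiv P (fun x => prOf (P x) (w x) (h x)) := ⟨w, hw, h, fun _ => rfl⟩

theorem continuous_prOf {X S T : Type} [TopologicalSpace X] [Fintype S] [Fintype T] {n : ℕ}
    (P : X → Pr S n) (w : X → Matrix T S ℂ) (hw : Continuous w) (h : ∀ x, (w x)ᴴ * w x = (P x).1) :
    Continuous (fun x => prOf (P x) (w x) (h x)) :=
  Continuous.subtype_mk (hw.matrix_mul hw.matrix_conjTranspose) _

/-! ## Identities for projections -/

section Entries
variable {S : Type} [Fintype S] {n : ℕ} (P : Pr S n)

theorem pr_star (x y : S) : star (P.1 x y) = P.1 y x :=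
  congrFun (congrFun P.2.1 y) x

theorem pr_mul (x y : S) : ∑ z, P.1 x z * P.1 z y = P.1 x y := by
  have h := congrFun (congrFun P.2.2.1 x) y
  rwa [Matrix.mul_apply] at h

theorem pr_diag (x : S) : P.1 x x = ((P.1 x x).re : ℂ) := by
  have h := pr_star P x x
  rw [Complex.star_def] at h
  exact (Complex.conj_eq_iff_re.1 h).symm

theorem pr_line (P : Pr S 1) (s i j : S) : P.1 i s * P.1 s j = P.1 s s * P.1 i j := by
  set a := P.1 s s with ha
  have ha' : star a = a := pr_star P s s
  let M : Matrix S S ℂ := fun i j => a * P.1 i j - P.1 i s * P.1 s j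
  have hMs : Mᴴ = M := by
    ext i j
    rw [conjTranspose_apply]
    simp only [M, star_sub, star_mul', ha', pr_star]
    ring
  have hMM : M * M = a • M := by
    ext i j
    rw [Matrix.mul_apply, Matrix.smul_apply, smul_eq_mul]
    have e : ∀ k, M i k * M k j = a ^ 2 * (P.1 i k * P.1 k j) - a * (P.1 i k * P.1 k s) * P.1 s j
        - a * P.1 i s * (P.1 s k * P.1 k j) + P.1 i s * (P.1 s k * P.1 k s) * P.1 s j := by
      intro k
      simp only [M]
      ring
    simp only [e]
    rw [Finset.sum_add_distrib, Finset.sum_sub_distrib, Finset.sum_sub_distrib, ← Finset.mul_sum,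
      ← Finset.sum_mul, ← Finset.mul_sum, ← Finset.mul_sum, ← Finset.sum_mul, ← Finset.mul_sum,
      pr_mul, pr_mul, pr_mul, pr_mul]
    simp only [M]
    rw [← ha]
    ring
  have htr : M.trace = 0 := by
    have h1 : M.trace = a * P.1.trace - ∑ i, P.1 s i * P.1 i s := by
      rw [Matrix.trace, Matrix.trace, Finset.mul_sum, ← Finset.sum_sub_distrib]
      refine Finset.sum_congr rfl fun i _ => ?_
      simp only [M, Matrix.diag_apply]
      ring
    rw [h1, pr_mul, P.2.2.2, ← ha]
    push_cast
    ring
  have h2 : (Mᴴ * M).trace = 0 := by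
    rw [hMs, hMM, Matrix.trace_smul, htr, smul_zero]
  have h3 : M = 0 := by
    open ComplexOrder in
    exact Matrix.trace_conjTranspose_mul_self_eq_zero_iff.1 h2
  have h4 := congrFun (congrFun h3 i) j
  simp only [M, Matrix.zero_apply] at h4
  rw [← sub_eq_zero, ← neg_eq_zero]
  rw [← h4]
  ring

theorem pr_diag_nonneg (x : S) : 0 ≤ (P.1 x x).re := by
  have h := pr_mul P x x
  rw [← h, Complex.re_sum]
  refine Finset.sum_nonneg fun z _ => ?_
  rw [← pr_star P x z, Complex.star_def, Complex.mul_conj]
  simp [Complex.normSq_nonneg]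

theorem pr_diag_le (x : S) : (P.1 x x).re ≤ n := by
  have h := congrArg Complex.re P.2.2.2
  rw [Matrix.trace, Complex.re_sum] at h
  have h2 : (P.1 x x).re ≤ ∑ i, (P.1.diag i).re :=
    Finset.single_le_sum (f := fun i => (P.1.diag i).re) (fun i _ => pr_diag_nonneg P i)
      (Finset.mem_univ x)
  rw [h] at h2
  simpa using h2

/-- if the last diagonal entry of a line is `1`, the line is the last coordinate line -/
theorem pr_eq_line (P : Pr (Option S) 1) (h : P.1 none none = 1) : P = Pr.line none := by
  classical
  have h1 : ∀ i, P.1 (some i) none = 0 := by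
    have h2 := congrArg Complex.re (pr_mul P none none)
    rw [Fintype.sum_option, h, Complex.add_re, Complex.re_sum] at h2
    have h3 : ∀ i, P.1 none (some i) * P.1 (some i) none =
        ((Complex.normSq (P.1 (some i) none) : ℝ) : ℂ) := by
      intro i
      rw [← pr_star P (some i) none, Complex.star_def, mul_comm, Complex.mul_conj]
    simp only [h3, Complex.ofReal_re] at h2
    have h4 : ∑ i, Complex.normSq (P.1 (some i) none) = 0 := by
      simpa using h2
    rw [Finset.sum_eq_zero_iff_of_nonneg (fun i _ => Complex.normSq_nonneg _)] at h4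
    intro i
    exact Complex.normSq_eq_zero.1 (h4 i (Finset.mem_univ i))
  refine Subtype.ext ?_
  ext x y
  have key : (Pr.line (none : Option S)).1 x y = if x = none ∧ y = none then (1 : ℂ) else 0 := by
    simp only [Pr.line]
    congr
  rw [key]
  have h5 := pr_line P none x y
  rw [h, one_mul] at h5
  rw [← h5]
  rcases x with _ | x
  · rcases y with _ | y
    · rw [if_pos ⟨rfl, rfl⟩, h, one_mul]
    · rw [if_neg (by simp), ← pr_star P (some y) none, h1, star_zero, mul_zero]
  · rw [if_neg (by simp), h1, zero_mul]

end Entries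

/-! ## Removal of a coordinate -/

section Down
variable {S : Type} [Fintype S] {n : ℕ}

/-- the coefficient of the inverse square root -/
def cc (a : ℝ) : ℝ := (Real.sqrt (1 - a) * (1 + Real.sqrt (1 - a)))⁻¹

theorem cc_spec {a : ℝ} (ha : a < 1) : 2 * cc a + cc a ^ 2 * a = (1 + cc a * a) ^ 2 ∧
    (2 * cc a + cc a ^ 2 * a) * (1 - a) = 1 := by
  have h0 : 0 < 1 - a := by linarith
  obtain ⟨r, hr⟩ : ∃ r, r = Real.sqrt (1 - a) := ⟨_, rfl⟩
  have hr0 : 0 < r := hr ▸ Real.sqrt_pos.2 h0
  have hr2 : a = 1 - r ^ 2 := by
    rw [hr, Real.sq_sqrt h0.le]; ring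
  unfold cc
  rw [← hr, hr2]
  constructor
  · field_simp
    ring
  · field_simp
    ring

theorem continuous_cc {X : Type} [TopologicalSpace X] {f : X → ℝ} (hf : Continuous f)
    (h : ∀ x, f x < 1) : Continuous (fun x => cc (f x)) := by
  unfold cc
  refine Continuous.inv₀ ?_ ?_
  · fun_prop
  · intro x
    have h1 : 0 < Real.sqrt (1 - f x) := Real.sqrt_pos.2 (by linarith [h x])
    positivity

/-- the partial isometry that removes the coordinate `none` -/
def wd (P : Pr (Option S) n) : Matrix S (Option S) ℂ := fun i y =>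
  P.1 (some i) y + (cc (P.1 none none).re : ℂ) * P.1 (some i) none * P.1 none y

theorem wd_sum (P : Pr (Option S) n) (x y : Option S) (c : ℂ) :
    ∑ z, (P.1 x z + c * P.1 x none * P.1 none z) * (P.1 z y + c * P.1 z none * P.1 none y) =
      P.1 x y + (2 * c + c ^ 2 * P.1 none none) * (P.1 x none * P.1 none y) := by
  have e : ∀ z, (P.1 x z + c * P.1 x none * P.1 none z) *
      (P.1 z y + c * P.1 z none * P.1 none y) = P.1 x z * P.1 z y +
      (P.1 x z * P.1 z none) * (c * P.1 none y) + (P.1 none z * P.1 z y) * (c * P.1 x none) +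
      (P.1 none z * P.1 z none) * (c ^ 2 * P.1 x none * P.1 none y) := by
    intro z; ring
  simp only [e]
  rw [Finset.sum_add_distrib, Finset.sum_add_distrib, Finset.sum_add_distrib, ← Finset.sum_mul,
    ← Finset.sum_mul, ← Finset.sum_mul, pr_mul, pr_mul, pr_mul, pr_mul]
  ring

theorem wd_spec (P : Pr (Option S) n) (h : (P.1 none none).re < 1) : (wd P)ᴴ * wd P = P.1 := by
  ext x y
  rw [Matrix.mul_apply]
  obtain ⟨c, hc⟩ : ∃ c : ℝ, c = cc (P.1 none none).re := ⟨_, rfl⟩
  have h1 : ∀ i : S, (wd P)ᴴ x i * wd P i y =
      (P.1 x (some i) + (c : ℂ) * P.1 x none * P.1 none (some i)) *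
      (P.1 (some i) y + (c : ℂ) * P.1 (some i) none * P.1 none y) := by
    intro i
    rw [conjTranspose_apply]
    simp only [wd, star_add, star_mul', pr_star, ← hc, Complex.star_def, Complex.conj_ofReal]
    ring
  simp only [h1]
  have h2 := wd_sum P x y (c : ℂ)
  rw [Fintype.sum_option] at h2
  have h3 := (cc_spec h).1
  rw [← hc] at h3
  have h4 := congrArg (fun t : ℝ => (t : ℂ)) h3
  push_cast at h4
  rw [← pr_diag P none] at h4
  rw [h4] at h2
  refine (eq_sub_of_add_eq' h2).trans ?_
  ring

theorem continuous_wd {X : Type} [TopologicalSpace X] (V : X → Pr (Option S) n) (hV : Continuous V)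
    (h : ∀ x, ((V x).1 none none).re < 1) : Continuous (fun x => wd (V x)) := by
  have hE : ∀ i j, Continuous (fun x => (V x).1 i j) := fun i j =>
    (continuous_subtype_val.comp hV).matrix_elem i j
  refine continuous_pi fun i => continuous_pi fun j => ?_
  refine (hE _ _).add ((Continuous.mul ?_ (hE _ _)).mul (hE _ _))
  exact Complex.continuous_ofReal.comp (continuous_cc (Complex.continuous_re.comp (hE _ _)) h)

/-- for lines -/
theorem wd_line (P : Pr (Option S) 1) (h : (P.1 none none).re < 1) (i j : S) :
    ((1 : ℂ) - P.1 none none) * (wd P * (wd P)ᴴ) i j = P.1 (some i) (some j) := by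
  rw [Matrix.mul_apply]
  obtain ⟨c, hc⟩ : ∃ c : ℝ, c = cc (P.1 none none).re := ⟨_, rfl⟩
  have h1 : ∀ z, wd P i z * (wd P)ᴴ z j =
      (P.1 (some i) z + (c : ℂ) * P.1 (some i) none * P.1 none z) *
      (P.1 z (some j) + (c : ℂ) * P.1 z none * P.1 none (some j)) := by
    intro z
    rw [conjTranspose_apply]
    simp only [wd, star_add, star_mul', pr_star, ← hc, Complex.star_def, Complex.conj_ofReal]
    ring
  simp only [h1]
  rw [wd_sum, pr_line]
  have h3 := (cc_spec h).2
  rw [← hc] at h3
  have h4 := congrArg (fun t : ℝ => (t : ℂ)) h3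
  push_cast at h4
  rw [← pr_diag P none] at h4
  linear_combination (P.1 none none * P.1 (some i) (some j)) * h4

end Down

/-! ## Sums with trivial projections -/

section Triv

open Classical in
/-- the identity -/
def prOne (T : Type) [Fintype T] : Pr T (Fintype.card T) :=
  ⟨1, conjTranspose_one, Matrix.one_mul 1, Matrix.trace_one⟩

theorem prOne_val (T : Type) [Fintype T] [DecidableEq T] : (prOne T).1 = 1 := by
  unfold prOne
  ext x y
  simp only [Matrix.one_apply]
  congr

/-- sum with a trivial projection -/
def stb {X S : Type} [Fintype S] {n : ℕ} (V : X → Pr S n) (T : Type) [Fintype T] (x : X) :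
    Pr (S ⊕ T) (n + Fintype.card T) := Pr.sum (V x, prOne T)

theorem continuous_stb {X S : Type} [TopologicalSpace X] [Fintype S] {n : ℕ} {V : X → Pr S n}
    (hV : Continuous V) (T : Type) [Fintype T] : Continuous (stb V T) :=
  Pr.continuous_sum.comp (hV.prodMk continuous_const)

theorem stb_val {X S : Type} [Fintype S] {n : ℕ} (V : X → Pr S n) (T : Type) [Fintype T]
    [DecidableEq T] (x : X) : (stb V T x).1 = Matrix.fromBlocks (V x).1 0 0 1 := by
  rw [← prOne_val T]
  rfl

theorem uequiv_stb {X S S' : Type} [TopologicalSpace X] [Fintype S] [Fintype S'] {n m : ℕ}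
    {V : X → Pr S n} {V' : X → Pr S' m} (h : UEquiv V V') (T : Type) [Fintype T] :
    UEquiv (stb V T) (stb V' T) := by
  classical
  obtain ⟨w, hw, h1, h2⟩ := h
  refine ⟨fun x => Matrix.fromBlocks (w x) 0 0 1, ?_, fun x => ?_, fun x => ?_⟩
  · exact Continuous.matrix_fromBlocks hw continuous_const continuous_const continuous_const
  · rw [fromBlocks_conjTranspose, fromBlocks_multiply, h1, stb_val]
    simp
  · rw [fromBlocks_conjTranspose, fromBlocks_multiply, h2, stb_val]
    simp

/-- renaming of the coordinates -/
theorem exists_reindex {X S S' : Type} [TopologicalSpace X] [Fintype S] [Fintype S'] {n : ℕ}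
    (e : S ≃ S') (V : X → Pr S' n) (hV : Continuous V) : ∃ V' : X → Pr S n, Continuous V' ∧
      UEquiv V V' := by
  have hw : Continuous (fun x => (V x).1.submatrix e id) :=
    (continuous_subtype_val.comp hV).matrix_submatrix _ _
  have h : ∀ x, ((V x).1.submatrix e id)ᴴ * (V x).1.submatrix e id = (V x).1 := by
    intro x
    ext i j
    rw [Matrix.mul_apply]
    refine Eq.trans ?_ (pr_mul (V x) i j)
    refine Eq.trans ?_ (e.sum_comp (fun z => (V x).1 i z * (V x).1 z j))
    refine Finset.sum_congr rfl fun z _ => ?_
    rw [conjTranspose_apply]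
    simp only [submatrix_apply, id, pr_star]
  exact ⟨_, continuous_prOf V _ hw h, uequiv_of V _ hw h⟩

/-- projections on the zero space -/
theorem stb_empty {X S : Type} [TopologicalSpace X] [Fintype S] [IsEmpty S] {n : ℕ}
    (V : X → Pr S n) (T : Type) [Fintype T] : UEquiv (stb V T) (fun _ : X => prOne T) := by
  classical
  refine ⟨fun _ => fun t y => Sum.elim (fun s => (isEmptyElim s : ℂ))
    (fun t' => if t = t' then 1 else 0) y, continuous_const, fun x => ?_, fun x => ?_⟩
  · rw [stb_val]
    ext i j
    rcases i with i | i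
    · exact isEmptyElim i
    · rcases j with j | j
      · exact isEmptyElim j
      · rw [Matrix.mul_apply, fromBlocks_apply₂₂, Matrix.one_apply]
        simp only [conjTranspose_apply, Sum.elim_inr]
        simp [eq_comm]
  · rw [prOne_val]
    ext i j
    rw [Matrix.mul_apply, Fintype.sum_sum_type, Matrix.one_apply]
    simp only [conjTranspose_apply, Sum.elim_inr]
    simp

end Triv

/-! ## Splitting off a line -/

section Up
variable {S : Type} [Fintype S] {m : ℕ}

/-- the coefficient -/
def uc (P : Pr (Option S) (m + 1)) : ℂ := - (P.1 none none)⁻¹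

theorem uc_mul (P : Pr (Option S) (m + 1)) (h : P.1 none none ≠ 0) :
    uc P * P.1 none none = -1 := by
  unfold uc
  rw [neg_mul, inv_mul_cancel₀ h]

theorem star_uc (P : Pr (Option S) (m + 1)) : star (uc P) = uc P := by
  unfold uc
  rw [star_neg, star_inv₀, pr_star]

/-- the sum over all coordinates -/
theorem up_full (P : Pr (Option S) (m + 1)) (h : P.1 none none ≠ 0) (x y : Option S) :
    ∑ z, (P.1 x z + uc P * P.1 x none * P.1 none z) *
      (P.1 z y + uc P * P.1 z none * P.1 none y) =
      P.1 x y + uc P * P.1 x none * P.1 none y := by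
  rw [wd_sum]
  linear_combination (uc P * P.1 x none * P.1 none y) * uc_mul P h

/-- the sum over the coordinates of `S` -/
theorem up_part (P : Pr (Option S) (m + 1)) (h : P.1 none none ≠ 0) (x y : Option S) :
    ∑ i : S, (P.1 x (some i) + uc P * P.1 x none * P.1 none (some i)) *
      (P.1 (some i) y + uc P * P.1 (some i) none * P.1 none y) =
      P.1 x y + uc P * P.1 x none * P.1 none y := by
  have h1 := up_full P h x y
  rw [Fintype.sum_option] at h1
  linear_combination h1 - (P.1 x none * (P.1 none y + uc P * P.1 none none * P.1 none y)) *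
    uc_mul P h

/-- the projection off the line spanned by `V e` -/
def upP (P : Pr (Option S) (m + 1)) (h : P.1 none none ≠ 0) : Pr S m :=
  ⟨fun i j => P.1 (some i) (some j) + uc P * P.1 (some i) none * P.1 none (some j), by
    refine ⟨?_, ?_, ?_⟩
    · ext i j
      rw [conjTranspose_apply]
      simp only [star_add, star_mul', pr_star, star_uc]
      ring
    · ext i j
      rw [Matrix.mul_apply]
      exact up_part P h (some i) (some j)
    · have h1 := P.2.2.2
      rw [Matrix.trace, Fintype.sum_option] at h1
      simp only [Matrix.diag_apply] at h1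
      have h2 := pr_mul P none none
      rw [Fintype.sum_option] at h2
      have h3 : ∑ i : S, uc P * P.1 (some i) none * P.1 none (some i) =
          uc P * ∑ i : S, P.1 none (some i) * P.1 (some i) none := by
        rw [Finset.mul_sum]
        refine Finset.sum_congr rfl fun i _ => ?_
        ring
      rw [Matrix.trace]
      simp only [Matrix.diag_apply]
      rw [Finset.sum_add_distrib, h3]
      push_cast at h1
      linear_combination h1 + uc P * h2 + (1 - P.1 none none) * uc_mul P h⟩

/-- the partial isometry -/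
def wu (P : Pr (Option S) (m + 1)) (T : Type) [DecidableEq T] :
    Matrix (S ⊕ Option T) (Option S ⊕ T) ℂ :=
  Matrix.fromBlocks (fun i y => P.1 (some i) y + uc P * P.1 (some i) none * P.1 none y) 0
    (fun r y => match r with
      | none => ((Real.sqrt (P.1 none none).re)⁻¹ : ℝ) * P.1 none y
      | some _ => 0)
    (fun r t => match r with
      | none => 0
      | some t' => if t' = t then 1 else 0)

theorem sqrt_uc (P : Pr (Option S) (m + 1)) (h : 0 < (P.1 none none).re) :
    (((Real.sqrt (P.1 none none).re)⁻¹ : ℝ) : ℂ) * (((Real.sqrt (P.1 none none).re)⁻¹ : ℝ) : ℂ) =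
      - uc P := by
  unfold uc
  rw [neg_neg, ← Complex.ofReal_mul, ← mul_inv, Real.mul_self_sqrt h.le]
  conv_rhs => rw [pr_diag P none]
  push_cast
  rfl

theorem ne_of_re_pos {z : ℂ} (h : 0 < z.re) : z ≠ 0 := fun h' => by
  rw [h'] at h
  exact lt_irrefl _ h

theorem wu_spec (P : Pr (Option S) (m + 1)) (h : 0 < (P.1 none none).re) (T : Type) [Fintype T]
    [DecidableEq T] : (wu P T)ᴴ * wu P T = Matrix.fromBlocks P.1 0 0 1 := by
  have h0 := ne_of_re_pos h
  unfold wu
  rw [fromBlocks_conjTranspose, fromBlocks_multiply]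
  congr 1
  · ext x y
    rw [Matrix.add_apply, Matrix.mul_apply, Matrix.mul_apply, Fintype.sum_option]
    simp only [conjTranspose_apply, star_zero, zero_mul, Finset.sum_const_zero, add_zero]
    have h1 : ∀ i : S, star (P.1 (some i) x + uc P * P.1 (some i) none * P.1 none x) *
        (P.1 (some i) y + uc P * P.1 (some i) none * P.1 none y) =
        (P.1 x (some i) + uc P * P.1 x none * P.1 none (some i)) *
        (P.1 (some i) y + uc P * P.1 (some i) none * P.1 none y) := by
      intro i
      simp only [star_add, star_mul', pr_star, star_uc]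
      ring
    simp only [h1]
    rw [up_part P h0, star_mul', pr_star, Complex.star_def, Complex.conj_ofReal]
    linear_combination (P.1 x none * P.1 none y) * sqrt_uc P h
  · ext x t
    rw [Matrix.add_apply, Matrix.mul_apply, Matrix.mul_apply, Fintype.sum_option]
    simp [conjTranspose_apply]
  · ext x t
    rw [Matrix.add_apply, Matrix.mul_apply, Matrix.mul_apply, Fintype.sum_option]
    simp [conjTranspose_apply]
  · ext x t
    rw [Matrix.add_apply, Matrix.mul_apply, Matrix.mul_apply, Fintype.sum_option]
    simp [conjTranspose_apply, Matrix.one_apply, eq_comm]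

theorem wu_spec' (P : Pr (Option S) (m + 1)) (h : 0 < (P.1 none none).re) (T : Type) [Fintype T]
    [DecidableEq T] : wu P T * (wu P T)ᴴ =
      Matrix.fromBlocks (upP P (ne_of_re_pos h)).1 0 0 1 := by
  have h0 := ne_of_re_pos h
  have hv : ∀ i : S, ∑ z, (P.1 (some i) z + uc P * P.1 (some i) none * P.1 none z) *
      P.1 z none = 0 := by
    intro i
    have e : ∀ z, (P.1 (some i) z + uc P * P.1 (some i) none * P.1 none z) * P.1 z none =
        P.1 (some i) z * P.1 z none +
          (P.1 none z * P.1 z none) * (uc P * P.1 (some i) none) := by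
      intro z; ring
    simp only [e]
    rw [Finset.sum_add_distrib, ← Finset.sum_mul, pr_mul, pr_mul]
    linear_combination (P.1 (some i) none) * uc_mul P h0
  unfold wu
  rw [fromBlocks_conjTranspose, fromBlocks_multiply]
  congr 1
  · ext i j
    rw [Matrix.add_apply, Matrix.mul_apply]
    have h1 : ∀ z, (P.1 (some i) z + uc P * P.1 (some i) none * P.1 none z) *
        star (P.1 (some j) z + uc P * P.1 (some j) none * P.1 none z) =
        (P.1 (some i) z + uc P * P.1 (some i) none * P.1 none z) *
        (P.1 z (some j) + uc P * P.1 z none * P.1 none (some j)) := by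
      intro i
      simp only [star_add, star_mul', pr_star, star_uc]
      ring
    simp only [conjTranspose_apply, h1]
    rw [up_full P h0]
    simp [upP]
  · ext i r
    rw [Matrix.add_apply, Matrix.mul_apply]
    rcases r with _ | t
    · simp only [conjTranspose_apply, star_mul', pr_star, Complex.star_def, Complex.conj_ofReal]
      have e : ∀ z, (P.1 (some i) z + uc P * P.1 (some i) none * P.1 none z) *
          ((((Real.sqrt (P.1 none none).re)⁻¹ : ℝ) : ℂ) * P.1 z none) =
          (((Real.sqrt (P.1 none none).re)⁻¹ : ℝ) : ℂ) *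
          ((P.1 (some i) z + uc P * P.1 (some i) none * P.1 none z) * P.1 z none) := by
        intro z; ring
      simp only [e]
      rw [← Finset.mul_sum, hv]
      simp
    · simp [conjTranspose_apply]
  · ext r i
    rw [Matrix.add_apply, Matrix.mul_apply]
    rcases r with _ | t
    · have e : ∀ z, (((Real.sqrt (P.1 none none).re)⁻¹ : ℝ) : ℂ) * P.1 none z *
          star (P.1 (some i) z + uc P * P.1 (some i) none * P.1 none z) =
          (((Real.sqrt (P.1 none none).re)⁻¹ : ℝ) : ℂ) *
          star ((P.1 (some i) z + uc P * P.1 (some i) none * P.1 none z) * P.1 z none) := by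
        intro z
        rw [star_mul', pr_star]
        ring
      simp only [conjTranspose_apply, e]
      rw [← Finset.mul_sum, ← star_sum, hv]
      simp
    · simp [conjTranspose_apply]
  · ext r r'
    rw [Matrix.add_apply, Matrix.mul_apply, Matrix.mul_apply, Matrix.one_apply]
    rcases r with _ | t
    · rcases r' with _ | t'
      · have e : ∀ z, (((Real.sqrt (P.1 none none).re)⁻¹ : ℝ) : ℂ) * P.1 none z *
            star ((((Real.sqrt (P.1 none none).re)⁻¹ : ℝ) : ℂ) * P.1 none z) =
            (- uc P) * (P.1 none z * P.1 z none) := by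
          intro z
          rw [star_mul', pr_star, Complex.star_def, Complex.conj_ofReal, ← sqrt_uc P h]
          ring
        simp only [conjTranspose_apply, e]
        rw [← Finset.mul_sum, pr_mul, neg_mul, uc_mul P h0]
        simp
      · simp [conjTranspose_apply]
    · rcases r' with _ | t'
      · simp [conjTranspose_apply]
      · simp [conjTranspose_apply]

theorem exists_up {X : Type} [TopologicalSpace X] (V : X → Pr (Option S) (m + 1))
    (hV : Continuous V) (h : ∀ x, 0 < ((V x).1 none none).re) (T : Type) [Fintype T] :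
    ∃ V' : X → Pr S m, Continuous V' ∧ UEquiv (stb V T) (stb V' (Option T)) := by
  classical
  have hE : ∀ i j, Continuous (fun x => (V x).1 i j) := fun i j =>
    (continuous_subtype_val.comp hV).matrix_elem i j
  have hu : Continuous (fun x => uc (V x)) := by
    unfold uc
    exact ((hE none none).inv₀ (fun x => ne_of_re_pos (h x))).neg
  have hA : ∀ i j, Continuous (fun x => (V x).1 (some i) j + uc (V x) * (V x).1 (some i) none *
      (V x).1 none j) := fun i j => (hE _ _).add ((hu.mul (hE _ _)).mul (hE _ _))
  have hS : Continuous (fun x => ((Real.sqrt ((V x).1 none none).re)⁻¹ : ℝ)) :=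
    ((Complex.continuous_re.comp (hE none none)).sqrt).inv₀
      (fun x => (Real.sqrt_pos.2 (h x)).ne')
  refine ⟨fun x => upP (V x) (ne_of_re_pos (h x)), ?_, fun x => wu (V x) T, ?_, fun x => ?_,
    fun x => ?_⟩
  · refine Continuous.subtype_mk ?_ _
    exact continuous_pi fun i => continuous_pi fun j => hA i (some j)
  · refine Continuous.matrix_fromBlocks ?_ continuous_const ?_ continuous_const
    · exact continuous_pi fun i => continuous_pi fun j => hA i j
    · refine continuous_pi fun r => continuous_pi fun j => ?_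
      rcases r with _ | t
      · exact (Complex.continuous_ofReal.comp hS).mul (hE _ _)
      · exact continuous_const
  · rw [wu_spec (V x) (h x), stb_val]
  · rw [wu_spec' (V x) (h x), stb_val]

end Up

end Pool.Agent.Helper62.Stab
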