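import Pool.Agent.Helper1.Stab.PR
import Pool.Agent.Helper63.Stab.CalB

/-! Project T, layer 1: the powers of an operator that is a sum of two operators up to terms of
lower filtration. -/

open Topology Filter Set

noncomputable section

namespace Pool.Agent.Helper62.Stab.T2

open Pool.Agent.Helper1.Stab

open Pool.Agent.Helper63.Stab

open Pool.Agent.Helper74.Stab (pw zero_comp comp_zero sub_comp tens_zero comp_sum sum_comp tens_sum
  rr tens_ltens_rr tens_tens_rr asC uC tens_asC tens_uC pw_zero pw_succ pw_natural Sym pw_succ'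
  tens_E tens_pw lu ET)

variable {R : Biv}

/-! ## Multiples -/

theorem comp_nsmul {K L M : LC} (n : ℕ) (x : R.Hom K L) (y : R.Hom L M) :
    R.comp x (n • y) = n • R.comp x y := by
  induction n with
  | zero => rw [zero_smul, zero_smul, comp_zero]
  | succ n ih => rw [succ_nsmul, succ_nsmul, R.comp_add, ih]

theorem nsmul_comp {K L M : LC} (n : ℕ) (x : R.Hom K L) (y : R.Hom L M) :
    R.comp (n • x) y = n • R.comp x y := by
  induction n with
  | zero => rw [zero_smul, zero_smul, zero_comp]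
  | succ n ih => rw [succ_nsmul, succ_nsmul, R.add_comp, ih]

theorem nsmul_tens {K L : LC} (n : ℕ) (x : R.Hom K L) (Z : LC) :
    R.tens (n • x) Z = n • R.tens x Z := by
  induction n with
  | zero => rw [zero_smul, zero_smul, tens_zero]
  | succ n ih => rw [succ_nsmul, succ_nsmul, R.tens_add, ih]

/-! ## Coordinates of the powers -/

instance crdCn : ∀ n : ℕ, Crd (Cn n)
  | 0 => inferInstanceAs (Crd PUnit)
  | n + 1 => by
    haveI := crdCn n
    exact inferInstanceAs (Crd ((Cn n) × ℂ))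

theorem dm_Cn (n : ℕ) : dm (Cn n) = n := by
  induction n with
  | zero => exact dm_point
  | succ n ih =>
    have h : dm (Cn (n + 1)) = dm (Cn n) + dm ℂ := dm_prod (Cn n) ℂ
    rw [h, ih, dm_C]

theorem CnAdd_perm (i : ℕ) : ∀ j : ℕ, IsPerm (CnAdd i j)
  | 0 => IsPerm.prodPUnit (Cn i)
  | j + 1 => (IsPerm.prodAssoc (Cn i) (Cn j) LC.C).symm.trans
      ((CnAdd_perm i j).prodCongr (IsPerm.refl ℂ))

theorem rr_perm (A B Z : LC) [Crd A] [Crd B] [Crd Z] : IsPerm (rr A B Z) :=
  (((IsPerm.prodAssoc A B Z).trans ((IsPerm.refl A).prodCongr (IsPerm.prodComm B Z))).trans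
    (IsPerm.prodAssoc A Z B).symm).of_eq fun _ => rfl

/-- `A × (B × C) = (A × B) × C` -/
def asI (A B C : LC) : A.prod (B.prod C) ≃ₜ (A.prod B).prod C := (Homeomorph.prodAssoc A B C).symm

theorem asI_perm (A B C : LC) [Crd A] [Crd B] [Crd C] : IsPerm (asI A B C) :=
  (IsPerm.prodAssoc A B C).symm

/-! ## The binomial formula -/

/-- an operator on a family of classes -/
structure Fil {X : LC} (a b : ℕ) (β : ∀ i j : ℕ, R.Hom ((Cn i).prod (Cn j)) X)
    (T E1 E2 : R.Hom X (X.prod LC.C)) : Prop where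
  sym : Sym T
  e1 : ∀ i j, i + 1 < a → j < b → R.comp (β (i + 1) j) E1 =
    R.comp (jh R (rr (Cn i) LC.C (Cn j))) (R.tens (β i j) LC.C)
  e1z : ∀ j < b, R.comp (β 0 j) E1 = 0
  e2 : ∀ i j, i < a → j + 1 < b → R.comp (β i (j + 1)) E2 =
    R.comp (jh R (asI (Cn i) (Cn j) LC.C)) (R.tens (β i j) LC.C)
  e2z : ∀ i < a, R.comp (β i 0) E2 = 0
  k : ∀ i j, i < a → j < b →
    ∃ z : ∀ i' j' : ℕ, R.Hom ((Cn i).prod (Cn j)) (((Cn i').prod (Cn j')).prod LC.C),
      R.comp (β i j) (T - E1 - E2) =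
        ∑ i' ∈ Finset.range i, ∑ j' ∈ Finset.range j,
          R.comp (z i' j') (R.tens (β i' j') LC.C)

namespace Fil
variable {X : LC} {a b : ℕ} {β : ∀ i j : ℕ, R.Hom ((Cn i).prod (Cn j)) X}
  {T E1 E2 : R.Hom X (X.prod LC.C)}

theorem step0 {K B : LC} (w : R.Hom K (B.prod LC.C)) (x : R.Hom B X) (n : ℕ)
    (h : R.comp x (pw T n) = 0) :
    R.comp (R.comp w (R.tens x LC.C)) (R.comp (R.tens (pw T n) LC.C) (jh R (asC X n))) = 0 := by
  rw [R.assoc, ← R.assoc (R.tens x LC.C), ← R.tens_comp, h, tens_zero, zero_comp, comp_zero]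

theorem split (h : Fil a b β T E1 E2) {i j : ℕ} (hi : i < a) (hj : j < b) (n : ℕ)
    (hl : ∀ i' < i, ∀ j' < j, R.comp (β i' j') (pw T n) = 0) :
    R.comp (β i j) (pw T (n + 1)) =
      R.comp (R.comp (β i j) E1) (R.comp (R.tens (pw T n) LC.C) (jh R (asC X n))) +
      R.comp (R.comp (β i j) E2) (R.comp (R.tens (pw T n) LC.C) (jh R (asC X n))) := by
  obtain ⟨z, hz⟩ := h.k i j hi hj
  have h1 : R.comp (β i j) T = R.comp (β i j) E1 + R.comp (β i j) E2 +
      ∑ i' ∈ Finset.range i, ∑ j' ∈ Finset.range j,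
          R.comp (z i' j') (R.tens (β i' j') LC.C) := by
    rw [← hz, ← R.comp_add, ← R.comp_add]
    congr 1
    abel
  rw [pw_succ' _ h.sym, ← R.assoc, h1, R.add_comp, R.add_comp, add_eq_left, sum_comp]
  refine Finset.sum_eq_zero fun i' hi' => ?_
  rw [sum_comp]
  refine Finset.sum_eq_zero fun j' hj' => ?_
  exact step0 _ _ _ (hl i' (Finset.mem_range.1 hi') j' (Finset.mem_range.1 hj'))

/-- powers beyond the filtration vanish -/
theorem zero (h : Fil a b β T E1 E2) (n : ℕ) : ∀ i j : ℕ, i < a → j < b → i + j < n →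
    R.comp (β i j) (pw T n) = 0 := by
  induction n with
  | zero => exact fun i j _ _ h => absurd h (Nat.not_lt_zero _)
  | succ n ih =>
    intro i j hi hj hn
    rw [h.split hi hj n fun i' hi' j' hj' => ih i' j' (by omega) (by omega) (by omega)]
    have h1 : R.comp (R.comp (β i j) E1) (R.comp (R.tens (pw T n) LC.C) (jh R (asC X n))) = 0 := by
      rcases i with _ | i
      · rw [h.e1z j hj, zero_comp]
      · rw [h.e1 i j hi hj]
        exact step0 _ _ _ (ih i j (by omega) hj (by omega))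
    have h2 : R.comp (R.comp (β i j) E2) (R.comp (R.tens (pw T n) LC.C) (jh R (asC X n))) = 0 := by
      rcases j with _ | j
      · rw [h.e2z i hi, zero_comp]
      · rw [h.e2 i j hi hj]
        exact step0 _ _ _ (ih i j hi (by omega) (by omega))
    rw [h1, h2, add_zero]

theorem step1 {K B : LC} (r : K ≃ₜ B.prod LC.C) (x : R.Hom B X) (n c : ℕ) {Z : LC}
    (x0 : R.Hom Z X) (e : B ≃ₜ Z.prod (Cn n))
    (h : R.comp x (pw T n) = c • R.comp (jh R e) (R.tens x0 (Cn n))) :
    R.comp (R.comp (jh R r) (R.tens x LC.C)) (R.comp (R.tens (pw T n) LC.C) (jh R (asC X n))) =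
      c • R.comp (jh R (K := K) (L := Z.prod (Cn (n + 1)))
        (r.trans ((e.prodCongr (Homeomorph.refl ℂ)).trans (asC Z n))))
        (R.tens x0 (Cn (n + 1))) := by
  have e1 : jh R (K := K) (L := Z.prod (Cn (n + 1)))
      (r.trans ((e.prodCongr (Homeomorph.refl ℂ)).trans (asC Z n))) =
      R.comp (jh R r) (R.comp (jh R (K := B.prod LC.C) (L := (Z.prod (Cn n)).prod LC.C)
        (e.prodCongr (Homeomorph.refl LC.C))) (jh R (asC Z n))) := by
    rw [← jh_trans, ← jh_trans]
  rw [R.assoc, ← R.assoc (R.tens x LC.C), ← R.tens_comp, h, nsmul_tens, nsmul_comp, comp_nsmul,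
    R.tens_comp, tens_jh, R.assoc, tens_asC, e1, R.assoc, R.assoc]

/-- the powers of the exact filtration -/
theorem binom (h : Fil a b β T E1 E2) (n : ℕ) : ∀ i j : ℕ, i < a → j < b → i + j = n →
    ∀ e : (Cn i).prod (Cn j) ≃ₜ ((Cn 0).prod (Cn 0)).prod (Cn n), IsPerm e →
    R.comp (β i j) (pw T n) = (n.choose i) • R.comp (jh R e) (R.tens (β 0 0) (Cn n)) := by
  induction n with
  | zero =>
    intro i j hi hj hn e he
    obtain ⟨rfl, rfl⟩ : i = 0 ∧ j = 0 := by omega
    rw [pw_zero, tens_uC, Nat.choose_self, one_smul]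
    have h1 : IsPerm (uC ((Cn 0).prod (Cn 0))) := (IsPerm.prodPUnit ((Cn 0).prod (Cn 0))).symm
    rw [IsPerm.jh_eq R h1 he]
  | succ n ih =>
    intro i j hi hj hn e he
    rw [h.split hi hj n fun i' hi' j' hj' => h.zero n i' j' (by omega) (by omega) (by omega)]
    have h1 : R.comp (R.comp (β i j) E1) (R.comp (R.tens (pw T n) LC.C) (jh R (asC X n))) =
        (if i = 0 then 0 else n.choose (i - 1)) • R.comp (jh R e) (R.tens (β 0 0) (Cn (n + 1))) := by
      rcases i with _ | i
      · rw [h.e1z j hj, zero_comp, if_pos rfl, zero_smul]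
      · rw [h.e1 i j hi hj, if_neg (Nat.succ_ne_zero i), Nat.add_sub_cancel]
        obtain ⟨e', he'⟩ := exists_isPerm (X := (Cn i).prod (Cn j))
          (Y := ((Cn 0).prod (Cn 0)).prod (Cn n)) (by
            have a1 : dm ((Cn i).prod (Cn j)) = dm (Cn i) + dm (Cn j) := dm_prod _ _
            have a2 : dm (((Cn 0).prod (Cn 0)).prod (Cn n)) = dm ((Cn 0).prod (Cn 0)) + dm (Cn n) :=
              dm_prod _ _
            have a3 : dm ((Cn 0).prod (Cn 0)) = dm (Cn 0) + dm (Cn 0) := dm_prod _ _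
            rw [a1, a2, a3]
            simp only [dm_Cn]
            omega)
        refine (step1 (K := (Cn (i + 1)).prod (Cn j)) (B := (Cn i).prod (Cn j))
          (rr (Cn i) LC.C (Cn j)) (β i j) n _ (β 0 0) e'
          (ih i j (by omega) hj (by omega) e' he')).trans ?_
        congr 2
        refine IsPerm.jh_eq R ?_ he
        exact (rr_perm _ _ _).trans ((he'.prodCongr (IsPerm.refl LC.C)).trans
          (IsPerm.prodAssoc ((Cn 0).prod (Cn 0)) (Cn n) LC.C))
    have h2 : R.comp (R.comp (β i j) E2) (R.comp (R.tens (pw T n) LC.C) (jh R (asC X n))) =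
        (n.choose i) • R.comp (jh R e) (R.tens (β 0 0) (Cn (n + 1))) := by
      rcases j with _ | j
      · rw [h.e2z i hi, zero_comp, Nat.choose_eq_zero_of_lt (by omega), zero_smul]
      · rw [h.e2 i j hi hj]
        obtain ⟨e', he'⟩ := exists_isPerm (X := (Cn i).prod (Cn j))
          (Y := ((Cn 0).prod (Cn 0)).prod (Cn n)) (by
            have a1 : dm ((Cn i).prod (Cn j)) = dm (Cn i) + dm (Cn j) := dm_prod _ _
            have a2 : dm (((Cn 0).prod (Cn 0)).prod (Cn n)) = dm ((Cn 0).prod (Cn 0)) + dm (Cn n) :=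
              dm_prod _ _
            have a3 : dm ((Cn 0).prod (Cn 0)) = dm (Cn 0) + dm (Cn 0) := dm_prod _ _
            rw [a1, a2, a3]
            simp only [dm_Cn]
            omega)
        refine (step1 (K := (Cn i).prod (Cn (j + 1))) (B := (Cn i).prod (Cn j))
          (asI (Cn i) (Cn j) LC.C) (β i j) n _ (β 0 0) e'
          (ih i j hi (by omega) (by omega) e' he')).trans ?_
        congr 2
        refine IsPerm.jh_eq R ?_ he
        exact (asI_perm _ _ _).trans ((he'.prodCongr (IsPerm.refl LC.C)).trans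
          (IsPerm.prodAssoc ((Cn 0).prod (Cn 0)) (Cn n) LC.C))
    rw [h1, h2, ← add_smul]
    congr 1
    rcases i with _ | i
    · rw [if_pos rfl, zero_add, Nat.choose_zero_right, Nat.choose_zero_right]
    · rw [if_neg (Nat.succ_ne_zero i), Nat.add_sub_cancel, Nat.choose_succ_succ]

end Fil

end Pool.Agent.Helper62.Stab.T2
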